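import Mathlib

/-!
Second moments, and a set of positive density in all short intervals.
-/

set_option autoImplicit false

open MeasureTheory Filter Topology Set

namespace Pool.Agent.Helper932Z

/-- the second moment method -/
lemma second_moment {ι : Type*} (s : Finset ι) {c d c0 C D : ℝ} (hcd : c < d) (hc0 : 0 < c0) (hC : 0 < C)
    {Z K : ι → ℝ → ℝ} (hs : s.Nonempty) (mZ : ∀ i, Measurable (Z i)) (cK : ∀ i, Continuous (K i))
    (h0 : ∀ i y, 0 ≤ Z i y) (hZK : ∀ i y, Z i y ≤ K i y)
    (h1 : ∀ i ∈ s, c0 * (d - c) ≤ ∫ y in Icc c d, Z i y)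
    (h2 : ∀ i ∈ s, ∀ j ∈ s, i ≠ j → ∫ y in Icc c d, K i y * K j y ≤ C * (d - c))
    (h3 : ∀ i ∈ s, ∀ y, Z i y ≤ D) (h4 : ∀ i ∈ s, ∫ y in Icc c d, K i y ≤ C * (d - c))
    (hD : D ≤ s.card) (hD0 : 0 ≤ D) :
    c0 ^ 2 / (2 * C) * (d - c) ≤ volume.real (Icc c d ∩ {y | ∃ i ∈ s, 0 < Z i y}) := by
  classical
  have hdc : 0 < d - c := by linarith
  set M : ℝ := (s.card : ℝ) with hM
  have hM1 : 1 ≤ M := by rw [hM]; exact_mod_cast hs.card_pos
  set W : ℝ → ℝ := fun y => ∑ i ∈ s, Z i y with hW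
  set U : Set ℝ := {y | ∃ i ∈ s, 0 < Z i y} with hU
  have mU : MeasurableSet U := by
    have : U = ⋃ i ∈ s, {y | 0 < Z i y} := by ext y; simp [hU]
    rw [this]
    exact Finset.measurableSet_biUnion _ fun i _ => measurableSet_lt measurable_const (mZ i)
  have mW : Measurable W := Finset.measurable_fun_sum _ fun i _ => mZ i
  have iK : ∀ i, IntegrableOn (K i) (Icc c d) := fun i => (cK i).integrableOn_Icc
  have iKK : ∀ i j, IntegrableOn (fun y => K i y * K j y) (Icc c d) := fun i j =>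
    ((cK i).mul (cK j)).integrableOn_Icc
  have iZ : ∀ i, IntegrableOn (Z i) (Icc c d) := fun i =>
    (iK i).mono' (mZ i).aestronglyMeasurable (Eventually.of_forall fun y => by
      rw [Real.norm_eq_abs, abs_of_nonneg (h0 i y)]; exact hZK i y)
  have iZZ : ∀ i j, IntegrableOn (fun y => Z i y * Z j y) (Icc c d) := fun i j =>
    (iKK i j).mono' ((mZ i).mul (mZ j)).aestronglyMeasurable (Eventually.of_forall fun y => by
      rw [Real.norm_eq_abs, abs_of_nonneg (mul_nonneg (h0 i y) (h0 j y))]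
      exact mul_le_mul (hZK i y) (hZK j y) (h0 j y) ((h0 i y).trans (hZK i y)))
  have iW : IntegrableOn W (Icc c d) := integrable_finsetSum _ fun i _ => iZ i
  have eW2 : ∀ y, W y ^ 2 = ∑ i ∈ s, ∑ j ∈ s, Z i y * Z j y := by
    intro y; simp only [hW]; rw [sq, Finset.sum_mul_sum]
  have iW2 : IntegrableOn (fun y => W y ^ 2) (Icc c d) := by
    simp_rw [eW2]
    exact integrable_finsetSum _ fun i _ => integrable_finsetSum _ fun j _ => iZZ i j
  have eA : ∫ y in Icc c d, W y = ∑ i ∈ s, ∫ y in Icc c d, Z i y :=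
    integral_finsetSum _ fun i _ => iZ i
  have hA : c0 * (d - c) * M ≤ ∫ y in Icc c d, W y := by
    rw [eA]
    calc c0 * (d - c) * M = ∑ _i ∈ s, c0 * (d - c) := by rw [Finset.sum_const, nsmul_eq_mul, mul_comm]
      _ ≤ _ := Finset.sum_le_sum h1
  have hQ : ∫ y in Icc c d, W y ^ 2 ≤ 2 * C * (d - c) * M ^ 2 := by
    simp_rw [eW2]
    rw [integral_finsetSum _ fun i _ => integrable_finsetSum _ fun j _ => iZZ i j]
    have h5 : ∀ i ∈ s, ∫ y in Icc c d, ∑ j ∈ s, Z i y * Z j y ≤ 2 * C * (d - c) * M := by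
      intro i hi
      rw [integral_finsetSum _ fun j _ => iZZ i j, ← Finset.add_sum_erase _ _ hi]
      have h6 : ∫ y in Icc c d, Z i y * Z i y ≤ C * (d - c) * M := by
        have h7 : ∫ y in Icc c d, Z i y * Z i y ≤ ∫ y in Icc c d, D * K i y := by
          refine setIntegral_mono (iZZ i i) ((iK i).const_mul D) fun y => ?_
          exact mul_le_mul (h3 i hi y) (hZK i y) (h0 i y) hD0
        rw [integral_const_mul] at h7
        have h8 : D * ∫ y in Icc c d, K i y ≤ M * (C * (d - c)) := by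
          refine mul_le_mul hD (h4 i hi) ?_ (by linarith)
          exact integral_nonneg fun y => (h0 i y).trans (hZK i y)
        linarith
      have h9 : ∑ j ∈ s.erase i, ∫ y in Icc c d, Z i y * Z j y ≤ C * (d - c) * M := by
        calc ∑ j ∈ s.erase i, ∫ y in Icc c d, Z i y * Z j y ≤ ∑ _j ∈ s.erase i, C * (d - c) := by
              refine Finset.sum_le_sum fun j hj => ?_
              rw [Finset.mem_erase] at hj
              refine le_trans ?_ (h2 i hi j hj.2 (Ne.symm hj.1))
              refine setIntegral_mono (iZZ i j) (iKK i j) fun y => ?_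
              exact mul_le_mul (hZK i y) (hZK j y) (h0 j y) ((h0 i y).trans (hZK i y))
          _ = ((s.erase i).card : ℝ) * (C * (d - c)) := by rw [Finset.sum_const, nsmul_eq_mul]
          _ ≤ M * (C * (d - c)) := by
              refine mul_le_mul_of_nonneg_right ?_ (by positivity)
              rw [hM]; exact_mod_cast Finset.card_erase_le
          _ = _ := by ring
      linarith
    calc ∑ i ∈ s, ∫ y in Icc c d, ∑ j ∈ s, Z i y * Z j y ≤ ∑ _i ∈ s, 2 * C * (d - c) * M := Finset.sum_le_sum h5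
      _ = M * (2 * C * (d - c) * M) := by rw [Finset.sum_const, nsmul_eq_mul]
      _ = _ := by ring
  set A : ℝ := c0 * (d - c) * M with hAd
  set Q : ℝ := 2 * C * (d - c) * M ^ 2 with hQd
  have hA0 : 0 < A := by positivity
  have hQ0 : 0 < Q := by positivity
  set lam : ℝ := Q / A with hlam
  have hlam0 : 0 < lam := by positivity
  have hpt : ∀ y, W y ≤ U.indicator (fun _ => lam / 2) y + 1 / (2 * lam) * W y ^ 2 := by
    intro y
    by_cases hy : y ∈ U
    · rw [indicator_of_mem hy]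
      have h5 : 0 ≤ (W y - lam) ^ 2 / (2 * lam) := by positivity
      have h6 : (W y - lam) ^ 2 / (2 * lam) = lam / 2 + 1 / (2 * lam) * W y ^ 2 - W y := by
        field_simp; ring
      linarith
    · rw [indicator_of_notMem hy]
      have h5 : W y = 0 := by
        simp only [hW]
        refine Finset.sum_eq_zero fun i hi => ?_
        by_contra h6
        exact hy ⟨i, hi, lt_of_le_of_ne (h0 i y) (Ne.symm h6)⟩
      rw [h5]; simp
  have iU : IntegrableOn (U.indicator fun _ => lam / 2) (Icc c d) :=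
    (integrableOn_const (by rw [Real.volume_Icc]; exact ENNReal.ofReal_ne_top)).indicator mU
  have hint : ∫ y in Icc c d, W y ≤ lam / 2 * volume.real (Icc c d ∩ U) + 1 / (2 * lam) * Q := by
    calc ∫ y in Icc c d, W y ≤ ∫ y in Icc c d, (U.indicator (fun _ => lam / 2) y + 1 / (2 * lam) * W y ^ 2) :=
          setIntegral_mono iW (iU.add (iW2.const_mul _)) hpt
      _ = lam / 2 * volume.real (Icc c d ∩ U) + 1 / (2 * lam) * ∫ y in Icc c d, W y ^ 2 := by
          rw [integral_add iU (iW2.const_mul _), integral_const_mul, setIntegral_indicator mU,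
            setIntegral_const, smul_eq_mul, mul_comm]
      _ ≤ _ := by
          have : 0 ≤ 1 / (2 * lam) := by positivity
          have := mul_le_mul_of_nonneg_left hQ this
          linarith
  have h7 : A ≤ lam / 2 * volume.real (Icc c d ∩ U) + 1 / (2 * lam) * Q := hA.trans hint
  have e8 : 1 / (2 * lam) * Q = A / 2 := by rw [hlam]; field_simp
  rw [e8] at h7
  have h9 : A / lam ≤ volume.real (Icc c d ∩ U) := by
    rw [div_le_iff₀ hlam0]; linarith
  refine le_trans (le_of_eq ?_) h9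
  rw [hlam, hAd, hQd]
  field_simp

/-- positive density in all short intervals -/
lemma full_density {p q κ η : ℝ} (hκ : 0 < κ) (hη : 0 < η) {G : Set ℝ} (hG : MeasurableSet G)
    (h : ∀ c d : ℝ, p ≤ c → c < d → d ≤ q → d - c ≤ η → κ * (d - c) ≤ volume.real (Icc c d ∩ G)) :
    ∀ᵐ y : ℝ, y ∈ Ioo p q → y ∈ G := by
  set B : Set ℝ := Ioo p q \ G with hB
  have mB : MeasurableSet B := measurableSet_Ioo.diff hG
  have hd := IsUnifLocDoublingMeasure.ae_tendsto_measure_inter_div (μ := (volume : Measure ℝ)) B 1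
  rw [ae_restrict_iff' mB] at hd
  filter_upwards [hd] with x hx hxI
  by_contra hxG
  have hxB : x ∈ B := ⟨hxI, hxG⟩
  have ht := hx hxB (fun _ : ℝ => x) (fun r => r) (l := 𝓝[>] (0:ℝ)) tendsto_id
    (by
      filter_upwards [self_mem_nhdsWithin] with r hr
      rw [one_mul]
      exact Metric.mem_closedBall_self (le_of_lt hr))
  have hsmall : ∀ᶠ r : ℝ in 𝓝[>] (0:ℝ), 0 < r ∧ p ≤ x - r ∧ x + r ≤ q ∧ 2 * r ≤ η := by
    have h1 : ∀ᶠ r : ℝ in 𝓝[>] (0:ℝ), r < min (x - p) (min (q - x) (η / 2)) := by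
      refine nhdsWithin_le_nhds (gt_mem_nhds ?_)
      exact lt_min (by linarith [hxI.1]) (lt_min (by linarith [hxI.2]) (by positivity))
    filter_upwards [h1, self_mem_nhdsWithin] with r hr h0
    have a1 := hr.trans_le (min_le_left _ _)
    have a2 := hr.trans_le ((min_le_right _ _).trans (min_le_left _ _))
    have a3 := hr.trans_le ((min_le_right _ _).trans (min_le_right _ _))
    exact ⟨h0, by linarith, by linarith, by linarith⟩
  have hle : ∀ᶠ r : ℝ in 𝓝[>] (0:ℝ), volume (B ∩ Metric.closedBall x r) / volume (Metric.closedBall x r) ≤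
      ENNReal.ofReal (1 - κ) := by
    filter_upwards [hsmall] with r ⟨h0, h1, h2, h3⟩
    have e1 : Metric.closedBall x r = Icc (x - r) (x + r) := Real.closedBall_eq_Icc
    rw [e1]
    have hk := h (x - r) (x + r) h1 (by linarith) h2 (by linarith)
    have e2 : x + r - (x - r) = 2 * r := by ring
    rw [e2] at hk
    have hfin : volume (Icc (x - r) (x + r)) ≠ ⊤ := by rw [Real.volume_Icc]; exact ENNReal.ofReal_ne_top
    have h4 : volume.real (B ∩ Icc (x - r) (x + r)) ≤ (1 - κ) * (2 * r) := by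
      have h5 := measureReal_inter_add_sdiff (μ := volume) (s := Icc (x - r) (x + r)) hG hfin
      have h6 : volume.real (Icc (x - r) (x + r)) = 2 * r := by
        rw [Real.volume_real_Icc_of_le (by linarith)]; ring
      have h7 : volume.real (B ∩ Icc (x - r) (x + r)) ≤ volume.real (Icc (x - r) (x + r) \ G) :=
        measureReal_mono (fun y hy => ⟨hy.2, hy.1.2⟩)
          (ne_top_of_le_ne_top hfin (measure_mono diff_subset))
      linarith
    have h8 : volume (B ∩ Icc (x - r) (x + r)) ≤ ENNReal.ofReal ((1 - κ) * (2 * r)) := by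
      rw [← ENNReal.ofReal_toReal (ne_top_of_le_ne_top hfin (measure_mono inter_subset_right))]
      exact ENNReal.ofReal_le_ofReal h4
    have h9 : volume (Icc (x - r) (x + r)) = ENNReal.ofReal (2 * r) := by
      rw [Real.volume_Icc, e2]
    rw [h9]
    refine ENNReal.div_le_of_le_mul ?_
    refine h8.trans (le_of_eq ?_)
    rw [ENNReal.ofReal_mul' (by positivity)]
  have hlim := le_of_tendsto ht hle
  have : ENNReal.ofReal (1 - κ) < 1 := by
    rw [← ENNReal.ofReal_one]
    exact (ENNReal.ofReal_lt_ofReal_iff one_pos).mpr (by linarith)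
  exact absurd hlim (not_le.mpr this)

/-- the upper limit of sets -/
lemma limsup_low {c d κ : ℝ} {S : ℕ → Set ℝ} (mS : ∀ n, MeasurableSet (S n))
    (h : ∀ N : ℕ, κ ≤ volume.real (Icc c d ∩ ⋃ n ≥ N, S n)) :
    κ ≤ volume.real (Icc c d ∩ {y | ∃ᶠ n in atTop, y ∈ S n}) := by
  have e1 : Icc c d ∩ {y | ∃ᶠ n in atTop, y ∈ S n} = ⋂ N : ℕ, (Icc c d ∩ ⋃ n ≥ N, S n) := by
    ext y
    simp only [mem_inter_iff, mem_setOf_eq, mem_iInter, mem_iUnion, frequently_atTop]
    constructor
    · rintro ⟨h1, h2⟩ N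
      obtain ⟨n, hn, hy⟩ := h2 N
      exact ⟨h1, n, hn, hy⟩
    · intro h1
      refine ⟨(h1 0).1, fun N => ?_⟩
      obtain ⟨_, n, hn, hy⟩ := h1 N
      exact ⟨n, hn, hy⟩
  rw [e1]
  have hanti : Antitone fun N : ℕ => Icc c d ∩ ⋃ n ≥ N, S n := by
    intro N N' hNN y hy
    refine ⟨hy.1, ?_⟩
    have := hy.2
    simp only [mem_iUnion] at this ⊢
    obtain ⟨n, hn, hy'⟩ := this
    exact ⟨n, hNN.trans hn, hy'⟩
  have hfin : volume (Icc c d) ≠ ⊤ := by rw [Real.volume_Icc]; exact ENNReal.ofReal_ne_top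
  have ht := tendsto_measure_iInter_atTop (μ := volume) (s := fun N : ℕ => Icc c d ∩ ⋃ n ≥ N, S n)
    (fun N => (measurableSet_Icc.inter (MeasurableSet.iUnion fun n => MeasurableSet.iUnion fun _ => mS n)).nullMeasurableSet)
    hanti ⟨0, ne_top_of_le_ne_top hfin (measure_mono inter_subset_left)⟩
  have hfin2 : volume (⋂ N : ℕ, (Icc c d ∩ ⋃ n ≥ N, S n)) ≠ ⊤ :=
    ne_top_of_le_ne_top hfin (measure_mono (iInter_subset_of_subset (0:ℕ) inter_subset_left))
  have ht2 := (ENNReal.tendsto_toReal hfin2).comp ht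
  exact ge_of_tendsto' ht2 h

end Pool.Agent.Helper932Z
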