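import Mathlib

/-!
The substitution `t = exp (a y)`.
-/

set_option autoImplicit false

open MeasureTheory Filter Topology Set
open scoped ENNReal

namespace Pool.Agent.Helper932Z

lemma chg (g : ℝ → ℝ≥0∞) {a : ℝ} (ha : 0 < a) (c d : ℝ) :
    ∫⁻ y in Icc c d, g (Real.exp (a * y)) =
      ∫⁻ t in Icc (Real.exp (a * c)) (Real.exp (a * d)), g t * ENNReal.ofReal (1 / (a * t)) := by
  have hfd : ∀ y ∈ Icc c d, HasDerivWithinAt (fun y => Real.exp (a * y)) (a * Real.exp (a * y)) (Icc c d) y := by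
    intro y _
    have h := ((hasDerivAt_id y).const_mul a).exp
    simp only [id] at h
    exact (h.congr_deriv (by ring)).hasDerivWithinAt
  have hinj : InjOn (fun y => Real.exp (a * y)) (Icc c d) := by
    intro x _ y _ hxy
    exact mul_left_cancel₀ ha.ne' (Real.exp_injective hxy)
  have himg : (fun y => Real.exp (a * y)) '' Icc c d = Icc (Real.exp (a * c)) (Real.exp (a * d)) := by
    ext t
    constructor
    · rintro ⟨y, hy, rfl⟩
      exact ⟨Real.exp_le_exp.mpr (mul_le_mul_of_nonneg_left hy.1 ha.le),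
        Real.exp_le_exp.mpr (mul_le_mul_of_nonneg_left hy.2 ha.le)⟩
    · rintro ⟨h1, h2⟩
      have ht : 0 < t := (Real.exp_pos _).trans_le h1
      have l1 := Real.log_le_log (Real.exp_pos _) h1
      have l2 := Real.log_le_log ht h2
      rw [Real.log_exp] at l1 l2
      refine ⟨Real.log t / a, ⟨?_, ?_⟩, ?_⟩
      · rw [le_div_iff₀ ha]; linarith
      · rw [div_le_iff₀ ha]; linarith
      · simp only
        rw [mul_div_cancel₀ _ ha.ne', Real.exp_log ht]
  have h1 := lintegral_image_eq_lintegral_abs_deriv_mul (s := Icc c d) measurableSet_Icc hfd hinj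
    (fun t => g t * ENNReal.ofReal (1 / (a * t)))
  rw [himg] at h1
  rw [h1]
  apply lintegral_congr
  intro y
  have h3 : 0 < a * Real.exp (a * y) := by positivity
  rw [abs_of_pos h3]
  have h4 : ENNReal.ofReal (a * Real.exp (a * y)) * ENNReal.ofReal (1 / (a * Real.exp (a * y))) = 1 := by
    rw [← ENNReal.ofReal_mul h3.le, mul_one_div_cancel h3.ne', ENNReal.ofReal_one]
  rw [mul_comm (g _), ← mul_assoc, h4, one_mul]

lemma lint_bU (g : ℝ → ℝ≥0∞) (A : ℕ → Set ℝ) (J : ℕ) :
    ∫⁻ t in ⋃ j ∈ Finset.range J, A j, g t ≤ ∑ j ∈ Finset.range J, ∫⁻ t in A j, g t := by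
  induction J with
  | zero => simp
  | succ J ih =>
    rw [Finset.sum_range_succ, Finset.range_add_one, Finset.set_biUnion_insert, union_comm]
    exact (lintegral_union_le _ _ _).trans (by gcongr)

/-- the upper bound from dyadic intervals -/
lemma chg_up {g : ℝ → ℝ≥0∞} {a c d : ℝ} {B : ℝ≥0∞} (ha : 1 ≤ a) (hcd : c ≤ d)
    (h : ∀ T : ℝ, Real.exp (a * c) ≤ T → T ≤ Real.exp (a * d) → ∫⁻ t in Icc T (2 * T), g t ≤ B * ENNReal.ofReal T) :
    ∫⁻ y in Icc c d, g (Real.exp (a * y)) ≤ B * ENNReal.ofReal (2 * (d - c) + 1) := by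
  have ha0 : 0 < a := by linarith
  have hl2 : (1:ℝ) / 2 < Real.log 2 := by linarith [Real.log_two_gt_d9]
  have hl0 : 0 < Real.log 2 := by linarith
  have hdc : 0 ≤ d - c := by linarith
  rw [chg g ha0]
  set T0 := Real.exp (a * c) with hT0
  have hT0p : 0 < T0 := Real.exp_pos _
  set J : ℕ := ⌊a * (d - c) / Real.log 2⌋₊ + 1 with hJ
  have hcov : Icc T0 (Real.exp (a * d)) ⊆ ⋃ j ∈ Finset.range J, Icc (T0 * 2 ^ j) (2 * (T0 * 2 ^ j)) := by
    rintro t ⟨h1, h2⟩
    have ht : 0 < t := hT0p.trans_le h1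
    have hx0 : 0 ≤ Real.log (t / T0) := Real.log_nonneg (by rwa [one_le_div hT0p])
    set j : ℕ := ⌊Real.log (t / T0) / Real.log 2⌋₊ with hj
    have hf1 : (j:ℝ) ≤ Real.log (t / T0) / Real.log 2 := Nat.floor_le (by positivity)
    have hf2 : Real.log (t / T0) / Real.log 2 < j + 1 := Nat.lt_floor_add_one _
    rw [le_div_iff₀ hl0] at hf1
    rw [div_lt_iff₀ hl0] at hf2
    have e1 : ∀ m : ℕ, (2:ℝ) ^ m = Real.exp (m * Real.log 2) := by
      intro m
      rw [mul_comm, ← Real.rpow_def_of_pos (by norm_num), Real.rpow_natCast]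
    have e2 : t / T0 = Real.exp (Real.log (t / T0)) := (Real.exp_log (by positivity)).symm
    have g1 : (2:ℝ) ^ j ≤ t / T0 := by
      rw [e1, e2]; exact Real.exp_le_exp.mpr hf1
    have g2 : t / T0 ≤ 2 ^ (j + 1) := by
      rw [e1, e2]
      refine Real.exp_le_exp.mpr ?_
      push_cast
      exact hf2.le
    rw [le_div_iff₀ hT0p] at g1
    rw [div_le_iff₀ hT0p] at g2
    have hjJ : j < J := by
      rw [hJ, Nat.lt_succ_iff]
      apply Nat.floor_le_floor
      apply div_le_div_of_nonneg_right _ hl0.le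
      have h3 := Real.log_le_log (by positivity : 0 < t / T0) (div_le_div_of_nonneg_right h2 hT0p.le)
      rw [hT0, ← Real.exp_sub, Real.log_exp] at h3
      have : a * d - a * c = a * (d - c) := by ring
      rw [hT0]; linarith
    simp only [mem_iUnion, Finset.mem_range]
    refine ⟨j, hjJ, ?_, ?_⟩
    · linarith
    · rw [pow_succ] at g2; linarith
  have hterm : ∀ j ∈ Finset.range J, ∫⁻ t in Icc (T0 * 2 ^ j) (2 * (T0 * 2 ^ j)),
      g t * ENNReal.ofReal (1 / (a * t)) ≤ B * ENNReal.ofReal (1 / a) := by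
    intro j hj
    rw [Finset.mem_range, hJ, Nat.lt_succ_iff] at hj
    set T := T0 * 2 ^ j with hT
    have hTp : 0 < T := by positivity
    have hTle : T ≤ Real.exp (a * d) := by
      have h1 : (j:ℝ) ≤ a * (d - c) / Real.log 2 := (Nat.cast_le.mpr hj).trans (Nat.floor_le (by positivity))
      rw [le_div_iff₀ hl0] at h1
      have e1 : (2:ℝ) ^ j = Real.exp (j * Real.log 2) := by
        rw [mul_comm, ← Real.rpow_def_of_pos (by norm_num), Real.rpow_natCast]
      rw [hT, hT0, e1, ← Real.exp_add]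
      apply Real.exp_le_exp.mpr
      linarith
    have h1 := h T (le_mul_of_one_le_right hT0p.le (one_le_pow₀ (by norm_num))) hTle
    calc ∫⁻ t in Icc T (2 * T), g t * ENNReal.ofReal (1 / (a * t)) ≤
          ∫⁻ t in Icc T (2 * T), g t * ENNReal.ofReal (1 / (a * T)) := by
          refine setLIntegral_mono' measurableSet_Icc fun t ht => ?_
          gcongr
          exact ht.1
      _ = (∫⁻ t in Icc T (2 * T), g t) * ENNReal.ofReal (1 / (a * T)) := by
          rw [lintegral_mul_const' _ _ ENNReal.ofReal_ne_top]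
      _ ≤ (B * ENNReal.ofReal T) * ENNReal.ofReal (1 / (a * T)) := by gcongr
      _ = B * ENNReal.ofReal (1 / a) := by
          rw [mul_assoc, ← ENNReal.ofReal_mul hTp.le]
          congr 2
          field_simp
  calc ∫⁻ t in Icc T0 (Real.exp (a * d)), g t * ENNReal.ofReal (1 / (a * t)) ≤
      ∫⁻ t in ⋃ j ∈ Finset.range J, Icc (T0 * 2 ^ j) (2 * (T0 * 2 ^ j)), g t * ENNReal.ofReal (1 / (a * t)) :=
        lintegral_mono_set hcov
    _ ≤ ∑ j ∈ Finset.range J, ∫⁻ t in Icc (T0 * 2 ^ j) (2 * (T0 * 2 ^ j)), g t * ENNReal.ofReal (1 / (a * t)) :=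
        lint_bU _ _ _
    _ ≤ ∑ _j ∈ Finset.range J, B * ENNReal.ofReal (1 / a) := Finset.sum_le_sum hterm
    _ = B * (J * ENNReal.ofReal (1 / a)) := by
        rw [Finset.sum_const, Finset.card_range, nsmul_eq_mul]; ring
    _ ≤ _ := by
        gcongr
        have e3 : (J : ℝ≥0∞) = ENNReal.ofReal J := by rw [ENNReal.ofReal_natCast]
        rw [e3, ← ENNReal.ofReal_mul (by positivity)]
        apply ENNReal.ofReal_le_ofReal
        have h5 : (J:ℝ) ≤ a * (d - c) / Real.log 2 + 1 := by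
          rw [hJ]; push_cast
          linarith [Nat.floor_le (by positivity : 0 ≤ a * (d - c) / Real.log 2)]
        have h6 : a * (d - c) / Real.log 2 ≤ a * (d - c) * 2 := by
          rw [div_le_iff₀ hl0]
          have : 0 ≤ a * (d - c) := by positivity
          nlinarith
        rw [mul_one_div, div_le_iff₀ ha0]
        nlinarith

/-- the lower bound from dyadic intervals -/
lemma chg_low {S : Set ℝ} (mS : MeasurableSet S) {a c d w : ℝ} (ha : 1 ≤ a) (hcd : c < d) (hw : 0 ≤ w)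
    (hlen : 2 ≤ a * (d - c))
    (h : ∀ T : ℝ, Real.exp (a * c) ≤ T → T ≤ Real.exp (a * d) → w * T ≤ volume.real (Icc T (2 * T) ∩ S)) :
    w / 4 * (d - c) ≤ volume.real (Icc c d ∩ {y | Real.exp (a * y) ∈ S}) := by
  have ha0 : 0 < a := by linarith
  have hl2 : (1:ℝ) / 2 < Real.log 2 := by linarith [Real.log_two_gt_d9]
  have hl3 : Real.log 2 < 1 := by linarith [Real.log_two_lt_d9]
  have hl0 : 0 < Real.log 2 := by linarith
  have hdc : 0 < d - c := by linarith
  set T0 := Real.exp (a * c) with hT0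
  have hT0p : 0 < T0 := Real.exp_pos _
  have mS' : MeasurableSet {y | Real.exp (a * y) ∈ S} :=
    (by fun_prop : Measurable fun y : ℝ => Real.exp (a * y)) mS
  have hfin : ∀ x y : ℝ, volume (Icc x y) ≠ ⊤ := fun x y => by
    rw [Real.volume_Icc]; exact ENNReal.ofReal_ne_top
  have e0 : volume (Icc c d ∩ {y | Real.exp (a * y) ∈ S}) =
      ∫⁻ y in Icc c d, S.indicator (fun _ => (1:ℝ≥0∞)) (Real.exp (a * y)) := by
    have : (fun y => S.indicator (fun _ => (1:ℝ≥0∞)) (Real.exp (a * y))) =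
        {y | Real.exp (a * y) ∈ S}.indicator fun _ => 1 := by
      funext y; by_cases hy : Real.exp (a * y) ∈ S <;> simp [hy]
    rw [this, setLIntegral_indicator mS', setLIntegral_one, inter_comm]
  rw [chg (S.indicator fun _ => (1:ℝ≥0∞)) ha0] at e0
  set J : ℕ := ⌊a * (d - c) / Real.log 2⌋₊ with hJ
  have hJle : (J:ℝ) ≤ a * (d - c) / Real.log 2 := Nat.floor_le (by positivity)
  have hJlt : a * (d - c) / Real.log 2 < J + 1 := Nat.lt_floor_add_one _
  have epow : ∀ j : ℕ, T0 * 2 ^ j = Real.exp (a * c + j * Real.log 2) := by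
    intro j
    rw [hT0, Real.exp_add]
    congr 1
    rw [mul_comm, ← Real.rpow_def_of_pos (by norm_num), Real.rpow_natCast]
  have htop : ∀ j < J, T0 * 2 ^ (j + 1) ≤ Real.exp (a * d) := by
    intro j hj
    rw [epow]
    apply Real.exp_le_exp.mpr
    have h1 : ((j + 1 : ℕ) : ℝ) ≤ a * (d - c) / Real.log 2 := le_trans (by exact_mod_cast hj) hJle
    rw [le_div_iff₀ hl0] at h1
    linarith
  have hsub : ⋃ j ∈ Finset.range J, Ico (T0 * 2 ^ j) (T0 * 2 ^ (j + 1)) ⊆ Icc T0 (Real.exp (a * d)) := by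
    intro t ht
    simp only [mem_iUnion, Finset.mem_range] at ht
    obtain ⟨j, hj, h1, h2⟩ := ht
    refine ⟨le_trans (le_mul_of_one_le_right hT0p.le (one_le_pow₀ (by norm_num))) h1, ?_⟩
    exact h2.le.trans (htop j hj)
  have hdisj : (↑(Finset.range J) : Set ℕ).PairwiseDisjoint fun j => Ico (T0 * 2 ^ j) (T0 * 2 ^ (j + 1)) := by
    have key : ∀ i j : ℕ, i < j → Disjoint (Ico (T0 * 2 ^ i) (T0 * 2 ^ (i + 1))) (Ico (T0 * 2 ^ j) (T0 * 2 ^ (j + 1))) := by
      intro i j hij
      rw [Set.disjoint_left]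
      rintro t ⟨_, h2⟩ ⟨h3, _⟩
      have : T0 * 2 ^ (i + 1) ≤ T0 * 2 ^ j :=
        mul_le_mul_of_nonneg_left (pow_le_pow_right₀ (by norm_num) hij) hT0p.le
      linarith
    intro i _ j _ hij
    rcases lt_or_gt_of_ne hij with h1 | h1
    · exact key i j h1
    · exact (key j i h1).symm
  have hterm : ∀ j ∈ Finset.range J, ENNReal.ofReal (w / (2 * a)) ≤
      ∫⁻ t in Ico (T0 * 2 ^ j) (T0 * 2 ^ (j + 1)), S.indicator (fun _ => (1:ℝ≥0∞)) t * ENNReal.ofReal (1 / (a * t)) := by
    intro j hj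
    rw [Finset.mem_range] at hj
    set T := T0 * 2 ^ j with hT
    have hTp : 0 < T := by positivity
    have e2T : T0 * 2 ^ (j + 1) = 2 * T := by rw [hT, pow_succ]; ring
    rw [e2T]
    have hTle : T ≤ Real.exp (a * d) := by
      have := htop j hj
      rw [e2T] at this
      linarith
    have h1 := h T (le_mul_of_one_le_right hT0p.le (one_le_pow₀ (by norm_num))) hTle
    calc ENNReal.ofReal (w / (2 * a)) = ENNReal.ofReal (w * T) * ENNReal.ofReal (1 / (a * (2 * T))) := by
          rw [← ENNReal.ofReal_mul (by positivity)]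
          congr 1
          field_simp
      _ ≤ volume (Icc T (2 * T) ∩ S) * ENNReal.ofReal (1 / (a * (2 * T))) := by
          gcongr
          rw [← ENNReal.ofReal_toReal (ne_top_of_le_ne_top (hfin T (2 * T)) (measure_mono inter_subset_left))]
          exact ENNReal.ofReal_le_ofReal h1
      _ = ∫⁻ t in Ico T (2 * T), S.indicator (fun _ => (1:ℝ≥0∞)) t * ENNReal.ofReal (1 / (a * (2 * T))) := by
          rw [lintegral_mul_const' _ _ ENNReal.ofReal_ne_top, setLIntegral_indicator mS, setLIntegral_one]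
          congr 1
          rw [inter_comm]
          exact measure_congr ((ae_eq_refl S).inter (Ico_ae_eq_Icc (μ := volume) (a := T) (b := 2 * T)).symm)
      _ ≤ _ := by
          refine setLIntegral_mono' measurableSet_Ico fun t ht => ?_
          have ht0 : 0 < t := hTp.trans_le ht.1
          gcongr
          exact ht.2.le
  have hsum : (J : ℝ≥0∞) * ENNReal.ofReal (w / (2 * a)) ≤ volume (Icc c d ∩ {y | Real.exp (a * y) ∈ S}) := by
    rw [e0]
    calc (J : ℝ≥0∞) * ENNReal.ofReal (w / (2 * a)) = ∑ _j ∈ Finset.range J, ENNReal.ofReal (w / (2 * a)) := by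
          rw [Finset.sum_const, Finset.card_range, nsmul_eq_mul]
      _ ≤ ∑ j ∈ Finset.range J, ∫⁻ t in Ico (T0 * 2 ^ j) (T0 * 2 ^ (j + 1)),
            S.indicator (fun _ => (1:ℝ≥0∞)) t * ENNReal.ofReal (1 / (a * t)) := Finset.sum_le_sum hterm
      _ = ∫⁻ t in ⋃ j ∈ Finset.range J, Ico (T0 * 2 ^ j) (T0 * 2 ^ (j + 1)),
            S.indicator (fun _ => (1:ℝ≥0∞)) t * ENNReal.ofReal (1 / (a * t)) :=
          (lintegral_biUnion_finset hdisj (fun _ _ => measurableSet_Ico) _).symm
      _ ≤ _ := lintegral_mono_set hsub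
  have e3 : (J : ℝ≥0∞) = ENNReal.ofReal J := by rw [ENNReal.ofReal_natCast]
  rw [e3, ← ENNReal.ofReal_mul (by positivity)] at hsum
  have h7 := ENNReal.toReal_mono (ne_top_of_le_ne_top (hfin c d) (measure_mono inter_subset_left)) hsum
  rw [ENNReal.toReal_ofReal (by positivity)] at h7
  refine le_trans ?_ h7
  have h8 : a * (d - c) ≤ a * (d - c) / Real.log 2 := by
    rw [le_div_iff₀ hl0]
    have : 0 ≤ a * (d - c) := by positivity
    nlinarith
  have h9 : a * (d - c) / 2 ≤ J := by linarith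
  calc w / 4 * (d - c) = (a * (d - c) / 2) * (w / (2 * a)) := by field_simp; ring
    _ ≤ J * (w / (2 * a)) := mul_le_mul_of_nonneg_right h9 (by positivity)

end Pool.Agent.Helper932Z
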