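import Pool.Agent.Helper932Z.Up

/-!
Large values of zeta on the critical line along `b_n α ^ (a_n)`, for almost all `α`.
-/

set_option autoImplicit false

namespace Pool.Agent.Helper932Z

open Filter Topology MeasureTheory
open Pool.Agent.TH806 Pool.Agent.TH806.LS

/-- from `y` to `α = exp y` -/
lemma ae_exp {p : ℝ → Prop} (h : ∀ᵐ y : ℝ, 0 < y → p (Real.exp y)) : ∀ᵐ α : ℝ, 1 < α → p α := by
  rw [ae_iff] at h ⊢
  have h3 := MeasureTheory.addHaar_image_eq_zero_of_differentiableOn_of_addHaar_eq_zero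
    (volume : Measure ℝ) (f := Real.exp) Real.differentiable_exp.differentiableOn h
  refine measure_mono_null ?_ h3
  intro α hα
  have hα' : ¬ (1 < α → p α) := hα
  push Not at hα'
  obtain ⟨hα1, hα2⟩ := hα'
  have hα0 : 0 < α := by linarith
  refine ⟨Real.log α, ?_, Real.exp_log hα0⟩
  change ¬ _
  intro hall
  apply hα2
  have := hall (Real.log_pos hα1)
  rwa [Real.exp_log hα0] at this

lemma exp_pow (y x : ℝ) : Real.exp y ^ x = Real.exp (x * y) := by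
  rw [← Real.exp_mul, mul_comm]

theorem main_up {a b : ℕ → ℝ} {δ s : ℝ} (hδ : 0 < δ) (ha1 : ∀ n, 1 ≤ a n) (hgap : ∀ n, a n + δ ≤ a (n + 1))
    (hb : ∀ n, 0 < b n) (hba : Tendsto (fun n => Real.log (b n) / a n) atTop (𝓝 0)) (hs0 : 0 < s)
    (hs : Summable fun n => a n ^ (-(s ^ 2))) :
    ∀ᵐ α : ℝ, 1 < α → ∀ᶠ n in atTop, Xz (b n * α ^ a n) ≤ a n ^ s := by
  apply ae_exp (p := fun α => ∀ᶠ n in atTop, Xz (b n * α ^ a n) ≤ a n ^ s)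
  filter_upwards [up_y hδ ha1 hgap hb hba hs0 hs] with y hy hy0
  filter_upwards [hy hy0] with n hn
  rwa [exp_pow]

theorem main_low {a b : ℕ → ℝ} {δ s : ℝ} (hδ : 0 < δ) (ha1 : ∀ n, 1 ≤ a n) (hgap : ∀ n, a n + δ ≤ a (n + 1))
    (hb : ∀ n, 0 < b n) (hba : Tendsto (fun n => Real.log (b n) / a n) atTop (𝓝 0)) (hs0 : 0 < s)
    (hns : ¬ Summable fun n => a n ^ (-(s ^ 2))) :
    ∀ᵐ α : ℝ, 1 < α → ∀ σ : ℝ, (σ = 1 ∨ σ = -1) → ∀ r : ℝ, |r| < s → ∀ ε : ℝ, 0 < ε →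
      ∃ᶠ n in atTop, 0 < σ * Zr (b n * α ^ a n) ∧
        a n ^ (r - ε) ≤ Xz (b n * α ^ a n) ∧ Xz (b n * α ^ a n) ≤ a n ^ (r + ε) := by
  apply ae_exp (p := fun α => ∀ σ : ℝ, (σ = 1 ∨ σ = -1) → ∀ r : ℝ, |r| < s → ∀ ε : ℝ, 0 < ε →
      ∃ᶠ n in atTop, 0 < σ * Zr (b n * α ^ a n) ∧
        a n ^ (r - ε) ≤ Xz (b n * α ^ a n) ∧ Xz (b n * α ^ a n) ≤ a n ^ (r + ε))
  filter_upwards [low_y hδ ha1 hgap hb hba hs0 hns] with y hy hy0 σ hσ r hr ε hε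
  refine (hy hy0 σ hσ r hr ε hε).mono fun n hn => ?_
  rwa [exp_pow]

end Pool.Agent.Helper932Z
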