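import Pool.Agent.Helper932Z.EPz
import Pool.Agent.TH806.LS.Fin

/-!
The configurations of primes for all heights between `exp (a p)` and `exp (a q)`.
-/

set_option autoImplicit false

namespace Pool.Agent.Helper932Z

open Finset Filter Topology MeasureTheory Complex MonoidAlgebra
open Pool.Agent.W184.NZ
open Pool.Agent.TH806 Pool.Agent.TH806.LK Pool.Agent.TH806.LM Pool.Agent.TH806.LS
open Pool.Agent.H306R2.SM (om cl Yf)
open Pool.Agent.H262R4.TM (Rng Ck)

lemma num_window {p q a L l Δ u x T : ℝ} (hp : 0 < p) (hq : q ≤ 2 * p) (hpq : p ≤ q) (ha : 4 ≤ a * p)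
    (ha1 : 1 ≤ a)
    (hL : L = Real.log a) (hl : l = Real.log (Real.log x)) (hΔ : Δ = |Real.log (p / 2)| + |Real.log (4 * p)|)
    (hLΔ : 4 * Δ + 4 ≤ L) (hT1 : Real.exp (a * p) ≤ T) (hT2 : T ≤ Real.exp (a * q)) (hx1 : T / 2 ≤ x)
    (hx2 : x ≤ 4 * T) (hu : |u| ≤ 3 / 2 * L) :
    0 < l ∧ |u / l| ≤ 2 ∧ (u / l) ^ 2 * l ≤ u ^ 2 / L + 3 * Δ ∧ √l ≤ 2 * √L ∧ Real.log x ≤ 4 * (a * p) ∧
      a * p / 4 ≤ Real.log x := by
  have hT0 : 0 < T := (Real.exp_pos _).trans_le hT1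
  have hx0 : 0 < x := by linarith
  have hl2 : Real.log 2 < 1 := by linarith [Real.log_two_lt_d9]
  have hl20 : 0 < Real.log 2 := Real.log_pos (by norm_num)
  have e4 : Real.log 4 = 2 * Real.log 2 := by
    rw [show (4:ℝ) = 2 ^ 2 by norm_num, Real.log_pow]; norm_num
  have g1 : a * p - 1 ≤ Real.log x := by
    have h1 := Real.log_le_log (by positivity : 0 < T / 2) hx1
    rw [Real.log_div hT0.ne' (by norm_num)] at h1
    have h2 := Real.log_le_log (Real.exp_pos _) hT1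
    rw [Real.log_exp] at h2
    linarith
  have g2 : Real.log x ≤ a * q + 2 := by
    have h1 := Real.log_le_log hx0 hx2
    rw [Real.log_mul (by norm_num) hT0.ne', e4] at h1
    have h2 := Real.log_le_log hT0 hT2
    rw [Real.log_exp] at h2
    linarith
  have ha0 : 0 < a := by linarith
  have haq : a * q ≤ 2 * (a * p) := by
    have := mul_le_mul_of_nonneg_left hq ha0.le
    linarith
  have g3 : a * (p / 2) ≤ Real.log x := by linarith
  have g4 : Real.log x ≤ a * (4 * p) := by linarith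
  have hlx0 : 0 < Real.log x := lt_of_lt_of_le (by positivity) g3
  have k1 : L + Real.log (p / 2) ≤ l := by
    have h1 := Real.log_le_log (by positivity) g3
    rw [Real.log_mul ha0.ne' (by positivity)] at h1
    rw [hL, hl]; exact h1
  have k2 : l ≤ L + Real.log (4 * p) := by
    have h1 := Real.log_le_log hlx0 g4
    rw [Real.log_mul ha0.ne' (by positivity)] at h1
    rw [hL, hl]; exact h1
  have a1 := abs_nonneg (Real.log (p / 2))
  have a2 := abs_nonneg (Real.log (4 * p))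
  have a3 := neg_abs_le (Real.log (p / 2))
  have a4 := le_abs_self (Real.log (4 * p))
  have hΔ0 : 0 ≤ Δ := by rw [hΔ]; positivity
  have m1 : L - Δ ≤ l := by linarith
  have m2 : l ≤ L + Δ := by linarith
  have hL0 : 0 < L := by linarith
  have m3 : 3 / 4 * L ≤ l := by linarith
  have m4 : l ≤ 2 * L := by linarith
  have hl0 : 0 < l := by linarith
  refine ⟨hl0, ?_, ?_, ?_, ?_, ?_⟩
  · rw [abs_div, abs_of_pos hl0, div_le_iff₀ hl0]
    linarith
  · have e1 : (u / l) ^ 2 * l = u ^ 2 / l := by field_simp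
    rw [e1]
    have hu2 : u ^ 2 ≤ 9 / 4 * L ^ 2 := by
      rw [← sq_abs]
      have := pow_le_pow_left₀ (abs_nonneg u) hu 2
      nlinarith
    have e2 : u ^ 2 / l - u ^ 2 / L = u ^ 2 * (L - l) / (l * L) := by field_simp
    have h3 : u ^ 2 * (L - l) / (l * L) ≤ 3 * Δ := by
      rw [div_le_iff₀ (by positivity)]
      have h4 : u ^ 2 * (L - l) ≤ 9 / 4 * L ^ 2 * Δ :=
        (mul_le_mul_of_nonneg_left (by linarith : L - l ≤ Δ) (sq_nonneg u)).trans
          (mul_le_mul_of_nonneg_right hu2 hΔ0)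
      have h5 : 9 / 4 * L ^ 2 * Δ ≤ 3 * Δ * (l * L) := by
        have h6 : 3 / 4 * L * L ≤ l * L := mul_le_mul_of_nonneg_right m3 hL0.le
        have h7 := mul_le_mul_of_nonneg_left h6 hΔ0
        nlinarith
      linarith
    linarith
  · rw [Real.sqrt_le_left (by positivity), mul_pow, Real.sq_sqrt hL0.le]
    linarith
  · linarith
  · linarith

lemma num_w {w₀ p a L u lT : ℝ} (hw₀ : 0 < w₀) (hp : 0 < p) (ha1 : 1 ≤ a) (hL : L = Real.log a) (hL0 : 0 < L)
    (hu : |u| ≤ 3 / 2 * L) (y6 : 1 ≤ a * (w₀ * p ^ 5)) (hlT : a * p ≤ lT) :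
    1 / lT ^ (5:ℝ) ≤ w₀ * (Real.exp (-(u ^ 2 / L)) / √L) := by
  have ha0 : 0 < a := by linarith
  have hap : 0 < a * p := by positivity
  have hlT5 : (a * p) ^ 5 ≤ lT ^ (5:ℝ) := by
    have e5 : lT ^ (5:ℝ) = lT ^ 5 := by
      rw [← Real.rpow_natCast]; norm_num
    rw [e5]
    exact pow_le_pow_left₀ hap.le hlT 5
  have h1 : 1 / lT ^ (5:ℝ) ≤ 1 / (a * p) ^ 5 :=
    one_div_le_one_div_of_le (by positivity) hlT5
  refine h1.trans ?_
  have hu2 : u ^ 2 / L ≤ 9 / 4 * L := by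
    rw [div_le_iff₀ hL0, ← sq_abs]
    have := pow_le_pow_left₀ (abs_nonneg u) hu 2
    calc |u| ^ 2 ≤ (3 / 2 * L) ^ 2 := this
      _ = _ := by ring
  have h2 : Real.exp (-(3 * L)) ≤ Real.exp (-(u ^ 2 / L)) := Real.exp_le_exp.mpr (by linarith)
  have h3 : Real.exp (-(3 * L)) = 1 / a ^ 3 := by
    have e1 : -(3 * L) = -(L + L + L) := by ring
    rw [e1, Real.exp_neg, Real.exp_add, Real.exp_add, hL, Real.exp_log ha0, one_div]
    congr 1; ring
  have h4 : √L ≤ a := by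
    have h5 : L ≤ a := by
      have := Real.log_le_sub_one_of_pos ha0
      rw [hL]; linarith
    have h6 : a ≤ a ^ 2 := by
      rw [sq]; exact le_mul_of_one_le_right ha0.le ha1
    calc √L ≤ √(a ^ 2) := Real.sqrt_le_sqrt (h5.trans h6)
      _ = a := Real.sqrt_sq ha0.le
  have hsL : 0 < √L := Real.sqrt_pos.mpr hL0
  have h6 : (1 / a ^ 3) / a ≤ Real.exp (-(u ^ 2 / L)) / √L := by
    rw [← h3]
    exact div_le_div₀ (Real.exp_pos _).le h2 hsL h4
  have h7 : 1 / (a * p) ^ 5 ≤ w₀ * ((1 / a ^ 3) / a) := by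
    have e6 : w₀ * ((1 / a ^ 3) / a) = w₀ / a ^ 4 := by field_simp
    rw [e6, div_le_div_iff₀ (by positivity) (by positivity)]
    have e7 : w₀ * (a * p) ^ 5 = (a * (w₀ * p ^ 5)) * a ^ 4 := by ring
    rw [e7]
    exact mul_le_mul_of_nonneg_right y6 (by positivity)
  exact h7.trans (mul_le_mul_of_nonneg_left h6 hw₀.le)

theorem conf {p q θ : ℝ} (hp : 0 < p) (hpq : p ≤ q) (hq : q ≤ 2 * p) (hθ : 0 < θ) :
    ∃ (n Rs : ℕ) (B' K c₁ C₁ A₀ : ℝ), 1 ≤ n ∧ 1 ≤ Rs ∧ 0 < B' ∧ 0 < K ∧ 0 < c₁ ∧ 0 < C₁ ∧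
      ∀ a : ℝ, A₀ ≤ a → ∃ (J : ℕ) (I : ℕ → Finset ℕ), (∀ i, ∀ p ∈ I i, p.Prime) ∧
      (∀ σ : ℝ, (σ = 1 ∨ σ = -1) → ∀ u : ℝ, |u| ≤ 3 / 2 * Real.log a → ∀ T : ℝ, Real.exp (a * p) ≤ T →
        T ≤ Real.exp (a * q) → c₁ * (Real.exp (-(u ^ 2 / Real.log a)) / √(Real.log a)) * T ≤
          volume.real (Set.Icc T (2 * T) ∩ (EE Rs J I K ∩ {t | |xx I J t - u| ≤ B'} ∩ Sg σ))) ∧
      ∀ k : ℝ, |k| ≤ 1 → ∃ M : ℂ, ‖M‖ ≤ C₁ * Real.exp (k ^ 2 * Real.log a) ∧
        EP (fun t => ((‖AZ n Rs J k (zz I t)‖ ^ 2 : ℝ) : ℂ)) (Real.exp (θ * a)) (Real.exp (-(θ * a))) M := by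
  have a_WLs := t_WLs Pool.Agent.TH126.LK_PT.t_PT a_U13.2 a_U4 a_LB a_U13s.1 a_U2s a_U13s.2 a_U4s a_ZR a_OZ
  obtain ⟨c₀, hc₀, hSet⟩ := t_SET2
  obtain ⟨n, P, e₀, η₀, hn1, hBn, he₀, he1, hη₀, hη₀1, hWL⟩ := a_WLs 2 (by norm_num) c₀ hc₀
  obtain ⟨P1, C1, hC1, hEP⟩ := ep_AZ n c₀ hn1 hc₀
  obtain ⟨P2, hSet⟩ := hSet e₀ he₀
  obtain ⟨CV, hCV, hSet⟩ := hSet (P + P1 + P2) (by omega)
  set η : ℝ := min η₀ (θ / (480 * p)) with hη
  have hη0 : 0 < η := lt_min hη₀ (by positivity)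
  have hηθ : 480 * (η * p) ≤ θ := by
    have := min_le_right η₀ (θ / (480 * p))
    rw [← hη, le_div_iff₀ (by positivity)] at this
    linarith
  obtain ⟨R₁, hWL⟩ := hWL η hη0 (min_le_left _ _) CV hCV
  set Rs : ℕ := max R₁ 1 with hRs
  have hRs1 : 1 ≤ Rs := le_max_right _ _
  obtain ⟨c_out, B', K, hcout, hB', hK, hWL⟩ := hWL Rs (le_max_left _ _)
  obtain ⟨κ, hSH⟩ := Pool.Agent.TH883.LM_SHM.t_SHM 0 5 le_rfl one_pos (by norm_num)
  rw [eventually_atTop] at hWL hSH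
  obtain ⟨T1, hWL⟩ := hWL
  obtain ⟨T2, hSH⟩ := hSH
  have hn1R : (1:ℝ) ≤ n := by exact_mod_cast hn1
  have hRsR : (1:ℝ) ≤ Rs := by exact_mod_cast hRs1
  set m : ℝ := n * ((Rs:ℝ) + 1) with hm
  have hm1 : 1 ≤ m := by rw [hm]; nlinarith
  have hm0 : 0 < m := by linarith
  set Δ : ℝ := |Real.log (p / 2)| + |Real.log (4 * p)| with hΔ
  have hΔ0 : 0 ≤ Δ := by rw [hΔ]; positivity
  set w₀ : ℝ := c_out * Real.exp (-(3 * Δ)) / 2 with hw₀
  have hw₀0 : 0 < w₀ := by positivity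
  set Dm : ℝ := |Real.log (η * p / (4 * m))| with hDm
  set Am : ℝ := 1 + Real.exp (4 * Δ + 4) + 20 * m / (η * p) + 4 / p + 2 * |T1| / p + |T2| / p + 3 / θ +
    1 / (w₀ * p ^ 5) with hAm
  have z1 : 0 < Real.exp (4 * Δ + 4) := Real.exp_pos _
  have z2 : 0 < 20 * m / (η * p) := by positivity
  have z3 : 0 < 4 / p := by positivity
  have z4 : 0 ≤ 2 * |T1| / p := by positivity
  have z5 : 0 ≤ |T2| / p := by positivity
  have z6 : 0 < 3 / θ := by positivity
  have z7 : 0 < 1 / (w₀ * p ^ 5) := by positivity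
  refine ⟨n, Rs, B', K, w₀ / 2, C1 * Real.exp (c₀ + Dm), Am,
    hn1, hRs1, hB', hK, by positivity, by positivity, fun a ha => ?_⟩
  have ha1 : 1 ≤ a := by linarith
  have ha0 : 0 < a := by linarith
  have y1 : 20 * m ≤ a * (η * p) := by
    have : 20 * m / (η * p) ≤ a := by linarith
    rwa [div_le_iff₀ (by positivity)] at this
  have y2 : 4 ≤ a * p := by
    have : 4 / p ≤ a := by linarith
    rwa [div_le_iff₀ hp] at this
  have y3 : 2 * |T1| ≤ a * p := by
    have : 2 * |T1| / p ≤ a := by linarith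
    rwa [div_le_iff₀ hp] at this
  have y4 : |T2| ≤ a * p := by
    have : |T2| / p ≤ a := by linarith
    rwa [div_le_iff₀ hp] at this
  have y5 : 3 ≤ a * θ := by
    have : 3 / θ ≤ a := by linarith
    rwa [div_le_iff₀ hθ] at this
  have y6 : 1 ≤ a * (w₀ * p ^ 5) := by
    have : 1 / (w₀ * p ^ 5) ≤ a := by linarith
    rwa [div_le_iff₀ (by positivity)] at this
  have y7 : 4 * Δ + 4 ≤ Real.log a := by
    have : Real.exp (4 * Δ + 4) ≤ a := by linarith
    have := Real.log_le_log (Real.exp_pos _) this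
    rwa [Real.log_exp] at this
  set L := Real.log a with hL
  have hL0 : 0 < L := by linarith
  set ly : ℝ := η * a * p / (4 * m) with hly
  have hly5 : 5 ≤ ly := by
    rw [hly, le_div_iff₀ (by positivity)]
    linarith
  have hy144 : (144:ℝ) ≤ Real.exp ly := by
    have h1 : Real.exp 5 ≤ Real.exp ly := Real.exp_le_exp.mpr hly5
    have h2 : (144:ℝ) ≤ Real.exp 5 := by
      have h3 : Real.exp 5 = Real.exp 1 ^ 5 := by rw [← Real.exp_nat_mul]; norm_num
      rw [h3]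
      have h4 : (2.71:ℝ) ^ 5 ≤ Real.exp 1 ^ 5 := pow_le_pow_left₀ (by norm_num) (by linarith [Real.exp_one_gt_d9]) 5
      norm_num at h4 ⊢
      linarith
    linarith
  have elog : Real.log (Real.exp ly) = ly := Real.log_exp _
  have emly : m * ly = η * a * p / 4 := by rw [hly]; field_simp
  obtain ⟨J, I, hCfg, hVV, -⟩ := hSet (Real.exp ly) hy144
  have hIp : ∀ i, ∀ p ∈ I i, p.Prime := fun i p hp => (hCfg.rg.pr i p hp).1
  refine ⟨J, I, hIp, ?_, ?_⟩
  · intro σ hσ u hu T hTa hTb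
    have hT0 : 0 < T := (Real.exp_pos _).trans_le hTa
    have hexp : a * p ≤ Real.exp (a * p) := by linarith [Real.add_one_le_exp (a * p)]
    have hTT2 : T2 ≤ T := by linarith [le_abs_self T2]
    obtain ⟨hR, hh2⟩ := hSH T hTT2
    obtain ⟨hS, -⟩ := hh2 T (by simp) le_rfl
    set S := EE Rs J I K ∩ {t | |xx I J t - u| ≤ B'} ∩ Sg σ with hSd
    have cz : ∀ i, Continuous fun t => zz I t i := fun i =>
      (continuous_apply i).comp (Pool.Agent.TH112.LKC.zz_cont hIp)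
    have mS : MeasurableSet S := by
      refine ((EE_meas cz K).inter ?_).inter (Sg_meas a_ZR.2.2 σ)
      exact measurableSet_le (((xx_cont cz).sub continuous_const).abs.measurable) measurable_const
    set w : ℝ := w₀ * (Real.exp (-(u ^ 2 / L)) / √L) with hw
    have hw1 : 1 / Real.log T ^ (5:ℝ) ≤ w := by
      have hlT : a * p ≤ Real.log T := by
        have := Real.log_le_log (Real.exp_pos _) hTa
        rwa [Real.log_exp] at this
      exact num_w hw₀0 hp ha1 rfl hL0 hu y6 hlT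
    have hw2 : ∀ x ∈ Set.Icc (T / 2) (4 * T), w ≤ ∫ t in Set.Ioi (0:ℝ) ∩ S, om (κ T) ((κ T : ℝ) / x) t := by
      intro x hx
      obtain ⟨n1, n2, n3, n4, n5, n6⟩ := num_window (L := L) (l := Real.log (Real.log x)) (Δ := Δ) (u := u)
        hp hq hpq y2 ha1 rfl rfl rfl y7 hTa hTb hx.1 hx.2 hu
      set l := Real.log (Real.log x) with hl
      have hxT1 : T1 ≤ x := by
        have := hx.1
        linarith [le_abs_self T1]
      have hc1 : η / 16 * Real.log x ≤ m * Real.log (Real.exp ly) := by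
        rw [elog, emly]
        have := mul_le_mul_of_nonneg_left n5 (by positivity : 0 ≤ η / 16)
        linarith
      have hc2 : m * Real.log (Real.exp ly) ≤ η * Real.log x := by
        rw [elog, emly]
        have := mul_le_mul_of_nonneg_left n6 hη0.le
        linarith
      have h1 := hWL x hxT1 (κ T) (hR x hx) (Real.exp ly) J I (hCfg.mono le_rfl (by omega)) hc1 hc2 hVV σ hσ
        (u / l) n2
      rw [div_mul_cancel₀ _ n1.ne'] at h1
      refine le_trans ?_ h1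
      have hsl : 0 < √l := Real.sqrt_pos.mpr n1
      have hsL : 0 < √L := Real.sqrt_pos.mpr hL0
      have h2 : Real.exp (-(3 * Δ)) * Real.exp (-(u ^ 2 / L)) ≤ Real.exp (-((u / l) ^ 2 * l)) := by
        rw [← Real.exp_add]
        exact Real.exp_le_exp.mpr (by linarith)
      have h3 : w = c_out * ((Real.exp (-(3 * Δ)) * Real.exp (-(u ^ 2 / L))) / (2 * √L)) := by
        rw [hw, hw₀]; field_simp
      rw [h3]
      exact mul_le_mul_of_nonneg_left (div_le_div₀ (Real.exp_pos _).le h2 hsl n4) hcout.le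
    have h8 := hS S mS w hw1 hw2
    have e9 : T + T = 2 * T := by ring
    rw [e9] at h8
    refine le_trans (le_of_eq ?_) h8
    rw [hw]; ring
  · intro k hk
    have hT' : 1 < Real.exp (8000 * (η * a * p)) := by
      rw [← Real.exp_zero]
      exact Real.exp_lt_exp.mpr (by positivity)
    obtain ⟨M, hM1, hM2⟩ := hEP Rs hRs1 _ hT' (Real.exp ly) J I (hCfg.mono he1 (by omega)) (by
      rw [elog, Real.log_exp]
      change m * ly ≤ _
      rw [emly]
      linarith) k (hk.trans hn1R)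
    refine ⟨M, hM1.trans ?_, hM2.mono ?_ ?_⟩
    · rw [mul_assoc, ← Real.exp_add]
      refine mul_le_mul_of_nonneg_left (Real.exp_le_exp.mpr ?_) hC1.le
      have h1 := hCfg.vv
      rw [elog] at h1
      have h2 : Real.log ly = L + Real.log (η * p / (4 * m)) := by
        rw [hL, ← Real.log_mul ha0.ne' (by positivity), hly]
        congr 1; ring
      have h3 : VV I J ≤ L + (Dm + c₀) := by
        have := le_abs_self (Real.log (η * p / (4 * m)))
        rw [hDm]; linarith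
      have hk2 : k ^ 2 ≤ 1 := by
        rw [← sq_abs]; nlinarith [abs_nonneg k]
      have hDm0 : 0 ≤ Dm := abs_nonneg _
      calc k ^ 2 * VV I J ≤ k ^ 2 * (L + (Dm + c₀)) := mul_le_mul_of_nonneg_left h3 (sq_nonneg k)
        _ = k ^ 2 * (Dm + c₀) + k ^ 2 * L := by ring
        _ ≤ 1 * (Dm + c₀) + k ^ 2 * L := by
            have := mul_le_mul_of_nonneg_right hk2 (by positivity : 0 ≤ Dm + c₀)
            linarith
        _ = _ := by ring
    · rw [← Real.exp_mul]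
      apply Real.exp_le_exp.mpr
      have h1 := mul_le_mul_of_nonneg_left hηθ ha0.le
      have : 0 ≤ η * a * p := by positivity
      linarith
    · rw [← Real.exp_mul, le_div_iff₀ (by norm_num)]
      have h7 : (7:ℝ) ≤ Real.exp 2 := by
        have h3 : Real.exp 2 = Real.exp 1 ^ 2 := by rw [← Real.exp_nat_mul]; norm_num
        rw [h3]
        nlinarith [Real.exp_one_gt_d9]
      calc Real.exp (-(θ * a)) * 7 ≤ Real.exp (-(θ * a)) * Real.exp 2 :=
            mul_le_mul_of_nonneg_left h7 (Real.exp_pos _).le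
        _ = Real.exp (-(θ * a) + 2) := (Real.exp_add _ _).symm
        _ ≤ _ := by
          apply Real.exp_le_exp.mpr
          have h1 := mul_le_mul_of_nonneg_left hηθ ha0.le
          have : 0 ≤ η * a * p := by positivity
          linarith

end Pool.Agent.Helper932Z
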