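import Mathlib
import Pool.Agent.R306.GP.VdC

/-!
Exponential polynomials along two geometric sequences are almost uncorrelated.
-/

set_option autoImplicit false

open MeasureTheory Filter Topology Set
open Pool.Agent.H469R2.NK (e norm_e e_add conj_e e_zero)
open Pool.Agent.R306.GP (vdc e_hasDerivAt e_cont)

namespace Pool.Agent.Helper932Z

/-- one stationary point -/
lemma stat {f f' f'' : ℝ → ℝ} {c d z μ r Q : ℝ} (hcd : c ≤ d) (hz : z ∈ Icc c d)
    (h1 : ∀ y ∈ Icc c d, HasDerivAt f (f' y) y) (h2 : ∀ y ∈ Icc c d, HasDerivAt f' (f'' y) y)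
    (h3 : ContinuousOn f'' (Icc c d)) (hμ : 0 < μ) (hr : 0 < r) (hQ0 : 0 ≤ Q)
    (hlow : ∀ y ∈ Icc c d, μ * |y - z| ≤ |f' y|)
    (hQ : ∀ y ∈ Icc c d, r ≤ |y - z| → |f'' y| ≤ Q * (f' y) ^ 2) :
    ‖∫ y in c..d, e (f y)‖ ≤ 2 * r + 2 * (2 / (μ * r) + Q * (d - c)) := by
  have hfc : ContinuousOn (fun y => e (f y)) (Icc c d) :=
    e_cont fun y hy => (h1 y hy).continuousAt.continuousWithinAt
  set p := max c (z - r) with hp
  set q := min d (z + r) with hq
  have hcp : c ≤ p := le_max_left _ _
  have hqd : q ≤ d := min_le_left _ _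
  have hpz : p ≤ z := max_le hz.1 (by linarith)
  have hzq : z ≤ q := le_min hz.2 (by linarith)
  have hpq : p ≤ q := hpz.trans hzq
  have hii : ∀ x y : ℝ, c ≤ x → x ≤ y → y ≤ d → IntervalIntegrable (fun y => e (f y)) volume x y := by
    intro x y hx hxy hy
    refine ContinuousOn.intervalIntegrable ?_
    rw [uIcc_of_le hxy]
    exact hfc.mono (Icc_subset_Icc hx hy)
  have e1 : ∫ y in c..d, e (f y) = (∫ y in c..p, e (f y)) + (∫ y in p..q, e (f y)) + ∫ y in q..d, e (f y) := by
    rw [intervalIntegral.integral_add_adjacent_intervals (hii c p le_rfl hcp (hpq.trans hqd))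
      (hii p q hcp hpq hqd), intervalIntegral.integral_add_adjacent_intervals
      (hii c q le_rfl (hcp.trans hpq) hqd) (hii q d (hcp.trans hpq) hqd le_rfl)]
  have hK0 : 0 ≤ 2 / (μ * r) + Q * (d - c) := by
    have : 0 ≤ d - c := by linarith
    positivity
  have hmid : ‖∫ y in p..q, e (f y)‖ ≤ 2 * r := by
    have h := intervalIntegral.norm_integral_le_of_norm_le_const (a := p) (b := q) (C := 1)
      (f := fun y => e (f y)) (fun y _ => (norm_e _).le)
    rw [one_mul, abs_of_nonneg (by linarith)] at h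
    refine h.trans ?_
    have : z - r ≤ p := le_max_right _ _
    have : q ≤ z + r := min_le_right _ _
    linarith
  have hpiece : ∀ x y : ℝ, c ≤ x → x ≤ y → y ≤ d → (∀ w ∈ Icc x y, r ≤ |w - z|) →
      ‖∫ y in x..y, e (f y)‖ ≤ 2 / (μ * r) + Q * (d - c) := by
    intro x y hx hxy hy hw
    have hsub : Icc x y ⊆ Icc c d := Icc_subset_Icc hx hy
    have h := vdc (f := f) (f' := f') (f'' := f'') hxy (fun w hw' => h1 w (hsub hw'))
      (fun w hw' => h2 w (hsub hw')) (h3.mono hsub) (l := μ * r) (by positivity) (fun w hw' => by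
        refine le_trans ?_ (hlow w (hsub hw'))
        exact mul_le_mul_of_nonneg_left (hw w hw') hμ.le) (Q := Q) (fun w hw' => hQ w (hsub hw') (hw w hw'))
    refine h.trans ?_
    have : Q * (y - x) ≤ Q * (d - c) := mul_le_mul_of_nonneg_left (by linarith) hQ0
    linarith
  have hleft : ‖∫ y in c..p, e (f y)‖ ≤ 2 / (μ * r) + Q * (d - c) := by
    rcases le_or_gt (z - r) c with h | h
    · have : p = c := max_eq_left h
      rw [this, intervalIntegral.integral_same, norm_zero]
      exact hK0
    · have hpe : p = z - r := max_eq_right h.le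
      refine hpiece c p le_rfl hcp (hpq.trans hqd) fun w hw => ?_
      rw [hpe] at hw
      rw [abs_of_nonpos (by linarith [hw.2])]
      linarith [hw.2]
  have hright : ‖∫ y in q..d, e (f y)‖ ≤ 2 / (μ * r) + Q * (d - c) := by
    rcases le_or_gt d (z + r) with h | h
    · have : q = d := min_eq_left h
      rw [this, intervalIntegral.integral_same, norm_zero]
      exact hK0
    · have hqe : q = z + r := min_eq_right h.le
      refine hpiece q d (hcp.trans hpq) hqd le_rfl fun w hw => ?_
      rw [hqe] at hw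
      rw [abs_of_nonneg (by linarith [hw.1])]
      linarith [hw.1]
  rw [e1]
  refine (norm_add₃_le).trans ?_
  linarith

/-- a monotone function is far from zero away from one point -/
lemma far {h : ℝ → ℝ} {c d m : ℝ} (hcd : c ≤ d) (hc : ContinuousOn h (Icc c d)) (hm : 0 ≤ m)
    (hinc : ∀ x ∈ Icc c d, ∀ y ∈ Icc c d, x ≤ y → m * (y - x) ≤ h y - h x) :
    ∃ z ∈ Icc c d, ∀ y ∈ Icc c d, m * |y - z| ≤ |h y| := by
  have hcm : c ∈ Icc c d := ⟨le_rfl, hcd⟩
  have hdm : d ∈ Icc c d := ⟨hcd, le_rfl⟩
  rcases le_or_gt 0 (h c) with h0 | h0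
  · refine ⟨c, hcm, fun y hy => ?_⟩
    have := hinc c hcm y hy hy.1
    rw [abs_of_nonneg (by linarith [hy.1])]
    exact (by linarith : m * (y - c) ≤ h y).trans (le_abs_self _)
  rcases le_or_gt (h d) 0 with h1 | h1
  · refine ⟨d, hdm, fun y hy => ?_⟩
    have := hinc y hy d hdm hy.2
    rw [abs_of_nonpos (by linarith [hy.2])]
    have h2 : m * -(y - d) ≤ - h y := by
      have : m * -(y - d) = m * (d - y) := by ring
      linarith
    exact h2.trans (neg_le_abs _)
  · have hiv := intermediate_value_Icc hcd hc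
    obtain ⟨z, hz, hz0⟩ := hiv (⟨h0.le, h1.le⟩ : (0:ℝ) ∈ Icc (h c) (h d))
    refine ⟨z, hz, fun y hy => ?_⟩
    rcases le_total z y with hzy | hzy
    · have := hinc z hz y hy hzy
      rw [hz0] at this
      rw [abs_of_nonneg (by linarith)]
      exact (by linarith : m * (y - z) ≤ h y).trans (le_abs_self _)
    · have := hinc y hy z hz hzy
      rw [hz0] at this
      rw [abs_of_nonpos (by linarith)]
      have h2 : m * -(y - z) ≤ - h y := by
        have : m * -(y - z) = m * (z - y) := by ring
        linarith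
      exact h2.trans (neg_le_abs _)

/-- two phases, positive coefficient -/
lemma two_pos {a b u v c d r : ℝ} (hc : 0 < c) (hcd : c ≤ d) (hb : 0 < b) (hab : b < a) (hu : 0 < u) (hr : 0 < r) :
    ‖∫ y in c..d, e (u * Real.exp (a * y) + v * Real.exp (b * y))‖ ≤
      2 * r + 2 * (2 / (a * (a - b) * u * Real.exp (a * c) * r) +
        (b / (a * (a - b) * u * Real.exp (a * c) * r) +
          a * (a - b) * u * Real.exp (a * d) / (a * (a - b) * u * Real.exp (a * c) * r) ^ 2) * (d - c)) := by
  have ha : 0 < a := hb.trans hab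
  have hab' : 0 < a - b := by linarith
  set μ := a * (a - b) * u * Real.exp (a * c) with hμ
  have hμ0 : 0 < μ := by positivity
  set f : ℝ → ℝ := fun y => u * Real.exp (a * y) + v * Real.exp (b * y) with hf
  set f' : ℝ → ℝ := fun y => a * u * Real.exp (a * y) + b * v * Real.exp (b * y) with hf'
  set f'' : ℝ → ℝ := fun y => a ^ 2 * u * Real.exp (a * y) + b ^ 2 * v * Real.exp (b * y) with hf''
  have hE : ∀ (k y : ℝ), HasDerivAt (fun y => Real.exp (k * y)) (k * Real.exp (k * y)) y := by
    intro k y
    have h := ((hasDerivAt_id y).const_mul k).exp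
    simp only [id] at h
    exact h.congr_deriv (by ring)
  have h1 : ∀ y, HasDerivAt f (f' y) y := fun y =>
    (((hE a y).const_mul u).add ((hE b y).const_mul v)).congr_deriv (by simp only [hf']; ring)
  have h2 : ∀ y, HasDerivAt f' (f'' y) y := fun y =>
    (((hE a y).const_mul (a * u)).add ((hE b y).const_mul (b * v))).congr_deriv (by simp only [hf'']; ring)
  -- the monotone quotient
  set h : ℝ → ℝ := fun y => a * u * Real.exp ((a - b) * y) + b * v with hh
  have hfh : ∀ y, f' y = h y * Real.exp (b * y) := by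
    intro y
    simp only [hf', hh]
    have : Real.exp (a * y) = Real.exp ((a - b) * y) * Real.exp (b * y) := by
      rw [← Real.exp_add]; congr 1; ring
    rw [this]; ring
  obtain ⟨z, hz, hz1⟩ := far (h := h) (m := a * (a - b) * u * Real.exp ((a - b) * c)) hcd
    (by simp only [hh]; fun_prop) (by positivity) (fun x hx y hy hxy => by
      simp only [hh]
      have h5 : (a - b) * (y - x) * Real.exp ((a - b) * x) ≤ Real.exp ((a - b) * y) - Real.exp ((a - b) * x) := by
        have h6 := Real.add_one_le_exp ((a - b) * (y - x))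
        have h7 : Real.exp ((a - b) * y) = Real.exp ((a - b) * (y - x)) * Real.exp ((a - b) * x) := by
          rw [← Real.exp_add]; congr 1; ring
        rw [h7]
        nlinarith [Real.exp_pos ((a - b) * x)]
      have h8 : Real.exp ((a - b) * c) ≤ Real.exp ((a - b) * x) :=
        Real.exp_le_exp.mpr (mul_le_mul_of_nonneg_left hx.1 hab'.le)
      have h9 : (a - b) * (y - x) * Real.exp ((a - b) * c) ≤ (a - b) * (y - x) * Real.exp ((a - b) * x) :=
        mul_le_mul_of_nonneg_left h8 (mul_nonneg hab'.le (by linarith))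
      have h10 := mul_le_mul_of_nonneg_left (h9.trans h5) (by positivity : 0 ≤ a * u)
      linarith)
  have hlow : ∀ y ∈ Icc c d, μ * |y - z| ≤ |f' y| := by
    intro y hy
    rw [hfh, abs_mul, abs_of_pos (Real.exp_pos _)]
    have e1 : μ = a * (a - b) * u * Real.exp ((a - b) * c) * Real.exp (b * c) := by
      rw [hμ, mul_assoc (a * (a - b) * u) (Real.exp ((a - b) * c)), ← Real.exp_add]; congr 2; ring
    have h8 : Real.exp (b * c) ≤ Real.exp (b * y) := Real.exp_le_exp.mpr (mul_le_mul_of_nonneg_left hy.1 hb.le)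
    rw [e1]
    calc a * (a - b) * u * Real.exp ((a - b) * c) * Real.exp (b * c) * |y - z| =
          (a * (a - b) * u * Real.exp ((a - b) * c) * |y - z|) * Real.exp (b * c) := by ring
      _ ≤ |h y| * Real.exp (b * y) := mul_le_mul (hz1 y hy) h8 (Real.exp_pos _).le (abs_nonneg _)
  have hdc : 0 ≤ d - c := by linarith
  have key := stat (f := f) (f' := f') (f'' := f'') (μ := μ) (r := r)
    (Q := b / (μ * r) + a * (a - b) * u * Real.exp (a * d) / (μ * r) ^ 2) hcd hz
    (fun y _ => h1 y) (fun y _ => h2 y) (by simp only [hf'']; fun_prop) hμ0 hr (by positivity) hlow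
    (fun y hy hyr => by
      have hl : μ * r ≤ |f' y| := (mul_le_mul_of_nonneg_left hyr hμ0.le).trans (hlow y hy)
      have hl0 : 0 < μ * r := by positivity
      have e2 : f'' y = b * f' y + a * (a - b) * u * Real.exp (a * y) := by
        simp only [hf', hf'']; ring
      have h11 : |f'' y| ≤ b * |f' y| + a * (a - b) * u * Real.exp (a * y) := by
        rw [e2]
        refine (abs_add_le _ _).trans ?_
        rw [abs_mul, abs_of_pos hb, abs_of_nonneg (by positivity : 0 ≤ a * (a - b) * u * Real.exp (a * y))]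
      have h12 : b * |f' y| ≤ b / (μ * r) * f' y ^ 2 := by
        rw [← sq_abs, div_mul_eq_mul_div, le_div_iff₀ hl0]
        nlinarith [abs_nonneg (f' y), mul_le_mul_of_nonneg_left hl (mul_nonneg hb.le (abs_nonneg (f' y)))]
      have h13 : a * (a - b) * u * Real.exp (a * y) ≤
          a * (a - b) * u * Real.exp (a * d) / (μ * r) ^ 2 * f' y ^ 2 := by
        rw [← sq_abs (f' y), div_mul_eq_mul_div, le_div_iff₀ (by positivity)]
        have h14 : Real.exp (a * y) ≤ Real.exp (a * d) :=
          Real.exp_le_exp.mpr (mul_le_mul_of_nonneg_left hy.2 ha.le)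
        have h15 : (μ * r) ^ 2 ≤ |f' y| ^ 2 := pow_le_pow_left₀ hl0.le hl 2
        exact mul_le_mul (mul_le_mul_of_nonneg_left h14 (by positivity)) h15 (by positivity) (by positivity)
      linarith)
  exact key

end Pool.Agent.Helper932Z
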