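import Pool.Agent.Helper932Z.EP

/-!
Exponential polynomials: mean values along one and two geometric sequences.
-/

set_option autoImplicit false

open MeasureTheory Filter Topology Set
open Pool.Agent.H469R2.NK (e norm_e e_add conj_e e_zero)
open Pool.Agent.R306.GP (vdc e_hasDerivAt e_cont)

namespace Pool.Agent.Helper932Z

lemma e_neg_norm (c d : ℝ) (f : ℝ → ℝ) : ‖∫ y in c..d, e (f y)‖ = ‖∫ y in c..d, e (-(f y))‖ := by
  have h : ∫ y in c..d, e (-(f y)) = (starRingEnd ℂ) (∫ y in c..d, e (f y)) := by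
    rw [← intervalIntegral.intervalIntegral_conj]
    exact intervalIntegral.integral_congr fun y _ => (conj_e _).symm
  rw [h, RCLike.norm_conj]

/-- the constant of the two phase lemma -/
noncomputable def C2 (c d δ : ℝ) : ℝ := 2 + 4 / δ + 4 * (d - c) / δ

lemma C2_pos {c d δ : ℝ} (hcd : c ≤ d) (hδ : 0 < δ) : 0 < C2 c d δ := by
  unfold C2
  have : 0 ≤ d - c := by linarith
  positivity

/-- two phases -/
lemma two {a b u v c d δ θ : ℝ} (hc : 0 < c) (hcd : c ≤ d) (hd : d ≤ 11 / 10 * c) (hδ : 0 < δ) (ha : 1 ≤ a)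
    (hb : 0 < b) (hab : b + δ ≤ a) (hθ : θ ≤ c / 20) (hu : Real.exp (-(θ * a)) ≤ |u|) :
    ‖∫ y in c..d, e (u * Real.exp (a * y) + v * Real.exp (b * y))‖ ≤ C2 c d δ * a * Real.exp (-(c / 4 * a)) := by
  have ha0 : 0 < a := by linarith
  have hdc : 0 ≤ d - c := by linarith
  have hu0 : 0 < |u| := (Real.exp_pos _).trans_le hu
  obtain ⟨v', hv'⟩ : ∃ v' : ℝ, ‖∫ y in c..d, e (u * Real.exp (a * y) + v * Real.exp (b * y))‖ =
      ‖∫ y in c..d, e (|u| * Real.exp (a * y) + v' * Real.exp (b * y))‖ := by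
    rcases abs_cases u with ⟨h, _⟩ | ⟨h, _⟩
    · exact ⟨v, by rw [h]⟩
    · refine ⟨-v, ?_⟩
      rw [e_neg_norm, h]
      congr 1
      refine intervalIntegral.integral_congr fun y _ => ?_
      refine congrArg e ?_
      ring
  rw [hv']
  set w := |u| with hw
  have key := two_pos (v := v') (r := Real.exp (-(c / 4 * a))) hc hcd hb (by linarith : b < a) hu0 (Real.exp_pos _)
  refine key.trans ?_
  set X := a * (a - b) * w * Real.exp (a * c) with hX
  set r := Real.exp (-(c / 4 * a)) with hr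
  have hab' : δ ≤ a - b := by linarith
  have hab0 : 0 < a - b := by linarith
  have hX0 : 0 < X := by positivity
  have hr0 : 0 < r := Real.exp_pos _
  -- lower bound of X r
  have h1 : δ * r⁻¹ ≤ X * r := by
    have h2 : δ * Real.exp (-(θ * a)) * Real.exp (a * c) ≤ X := by
      rw [hX]
      have h3 : 1 * δ ≤ a * (a - b) := mul_le_mul ha hab' hδ.le ha0.le
      rw [one_mul] at h3
      gcongr
    have h4 : δ * r⁻¹ ≤ δ * Real.exp (-(θ * a)) * Real.exp (a * c) * r := by
      rw [hr, ← Real.exp_neg, mul_assoc, mul_assoc, ← Real.exp_add, ← Real.exp_add]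
      refine mul_le_mul_of_nonneg_left (Real.exp_le_exp.mpr ?_) hδ.le
      have : θ * a ≤ c / 20 * a := mul_le_mul_of_nonneg_right hθ ha0.le
      have : 0 ≤ c * a := by positivity
      linarith
    exact h4.trans (mul_le_mul_of_nonneg_right h2 hr0.le)
  have hXr : 0 < X * r := by positivity
  have i1 : 1 / (X * r) ≤ r / δ := by
    rw [div_le_div_iff₀ hXr hδ]
    have h5 : r * (δ * r⁻¹) ≤ r * (X * r) := mul_le_mul_of_nonneg_left h1 hr0.le
    have e5 : r * (δ * r⁻¹) = δ := by field_simp
    linarith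
  have i2 : X * Real.exp (a * (d - c)) / (X * r) ^ 2 ≤ r / δ := by
    have e6 : X * Real.exp (a * (d - c)) / (X * r) ^ 2 = 1 / (X * r) * (Real.exp (a * (d - c)) * r⁻¹) := by
      field_simp
    rw [e6]
    have h7 : δ * (r⁻¹ * (Real.exp (a * (d - c)) * r⁻¹)) ≤ X * r := by
      have h2 : δ * Real.exp (-(θ * a)) * Real.exp (a * c) ≤ X := by
        rw [hX]
        have h3 : 1 * δ ≤ a * (a - b) := mul_le_mul ha hab' hδ.le ha0.le
        rw [one_mul] at h3
        gcongr
      have h4 : δ * (r⁻¹ * (Real.exp (a * (d - c)) * r⁻¹)) ≤ δ * Real.exp (-(θ * a)) * Real.exp (a * c) * r := by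
        rw [hr, ← Real.exp_neg, mul_assoc, mul_assoc, ← Real.exp_add, ← Real.exp_add, ← Real.exp_add, ← Real.exp_add]
        refine mul_le_mul_of_nonneg_left (Real.exp_le_exp.mpr ?_) hδ.le
        have : θ * a ≤ c / 20 * a := mul_le_mul_of_nonneg_right hθ ha0.le
        have h8 : a * (d - c) ≤ a * (c / 10) := mul_le_mul_of_nonneg_left (by linarith) ha0.le
        have : 0 ≤ c * a := by positivity
        nlinarith
      exact h4.trans (mul_le_mul_of_nonneg_right h2 hr0.le)
    rw [div_mul_eq_mul_div, one_mul, div_le_div_iff₀ hXr hδ]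
    have h9 := mul_le_mul_of_nonneg_left h7 hr0.le
    have e9 : r * (δ * (r⁻¹ * (Real.exp (a * (d - c)) * r⁻¹))) = Real.exp (a * (d - c)) * r⁻¹ * δ := by
      field_simp
    linarith
  have e10 : a * (a - b) * w * Real.exp (a * d) = X * Real.exp (a * (d - c)) := by
    rw [hX, mul_assoc (a * (a - b) * w) (Real.exp (a * c)), ← Real.exp_add]; congr 2; ring
  rw [e10]
  have j1 : 2 / (X * r) ≤ 2 * (r / δ) := by
    have : 2 / (X * r) = 2 * (1 / (X * r)) := by ring
    rw [this]; linarith
  have j2 : b / (X * r) ≤ a * (r / δ) := by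
    have : b / (X * r) = b * (1 / (X * r)) := by ring
    rw [this]
    exact mul_le_mul (by linarith) i1 (by positivity) ha0.le
  have j3 : X * Real.exp (a * (d - c)) / (X * r) ^ 2 ≤ a * (r / δ) := by
    refine i2.trans ?_
    have : 0 ≤ r / δ := by positivity
    nlinarith
  have j4 : 2 * (r / δ) ≤ 2 * (a * (r / δ)) := by
    have : 0 ≤ r / δ := by positivity
    nlinarith
  have j5 : (b / (X * r) + X * Real.exp (a * (d - c)) / (X * r) ^ 2) * (d - c) ≤
      (a * (r / δ) + a * (r / δ)) * (d - c) := mul_le_mul_of_nonneg_right (by linarith) hdc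
  have j6 : r ≤ a * r := by nlinarith
  have e11 : C2 c d δ * a * r = 2 * (a * r) + 2 * (2 * (a * (r / δ)) + (a * (r / δ) + a * (r / δ)) * (d - c)) := by
    unfold C2
    field_simp
    ring
  rw [e11]
  linarith

/-- one phase -/
lemma one {b v c d θ : ℝ} (hcd : c ≤ d) (hb : 1 ≤ b) (hv : Real.exp (-(θ * b)) ≤ |v|) :
    ‖∫ y in c..d, e (v * Real.exp (b * y))‖ ≤ (2 + (d - c)) * Real.exp (-((c - θ) * b)) := by
  have hb0 : 0 < b := by linarith
  have hv0 : 0 < |v| := (Real.exp_pos _).trans_le hv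
  have hdc : 0 ≤ d - c := by linarith
  have hE : ∀ y : ℝ, HasDerivAt (fun y => Real.exp (b * y)) (b * Real.exp (b * y)) y := by
    intro y
    have h := ((hasDerivAt_id y).const_mul b).exp
    simp only [id] at h
    exact h.congr_deriv (by ring)
  set m := |v| * Real.exp (b * c) with hm
  have hm0 : 0 < m := by positivity
  have h := vdc (f := fun y => v * Real.exp (b * y)) (f' := fun y => b * (v * Real.exp (b * y)))
    (f'' := fun y => b * (b * (v * Real.exp (b * y)))) hcd
    (fun y _ => ((hE y).const_mul v).congr_deriv (by ring))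
    (fun y _ => ((((hE y).const_mul v).const_mul b)).congr_deriv (by ring)) (by fun_prop)
    (l := m) hm0 (fun y hy => by
      rw [abs_mul, abs_mul, abs_of_pos hb0, abs_of_pos (Real.exp_pos _)]
      have h1 : Real.exp (b * c) ≤ Real.exp (b * y) := Real.exp_le_exp.mpr (mul_le_mul_of_nonneg_left hy.1 hb0.le)
      calc m = 1 * (|v| * Real.exp (b * c)) := by rw [one_mul]
        _ ≤ b * (|v| * Real.exp (b * y)) := by gcongr)
    (Q := 1 / m) (fun y hy => by
      have h1 : Real.exp (b * c) ≤ Real.exp (b * y) := Real.exp_le_exp.mpr (mul_le_mul_of_nonneg_left hy.1 hb0.le)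
      have h2 : m ≤ |v * Real.exp (b * y)| := by
        rw [abs_mul, abs_of_pos (Real.exp_pos _), hm]
        exact mul_le_mul_of_nonneg_left h1 hv0.le
      set x := v * Real.exp (b * y) with hx
      rw [abs_mul, abs_mul, abs_of_pos hb0, mul_pow, ← sq_abs x, one_div, inv_mul_eq_div, le_div_iff₀ hm0]
      have h3 : |x| * m ≤ |x| * |x| := mul_le_mul_of_nonneg_left h2 (abs_nonneg _)
      nlinarith [sq_nonneg b, abs_nonneg x])
  refine h.trans ?_
  have h4 : 1 / m ≤ Real.exp (-((c - θ) * b)) := by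
    rw [div_le_iff₀ hm0, hm]
    have h5 : Real.exp (-(θ * b)) * Real.exp (b * c) ≤ |v| * Real.exp (b * c) := by gcongr
    have h6 : Real.exp (-((c - θ) * b)) * (Real.exp (-(θ * b)) * Real.exp (b * c)) = 1 := by
      rw [← Real.exp_add, ← Real.exp_add, ← Real.exp_zero]; congr 1; ring
    rw [← h6]
    exact mul_le_mul_of_nonneg_left h5 (Real.exp_pos _).le
  have e1 : 2 / m + 1 / m * (d - c) = (2 + (d - c)) * (1 / m) := by ring
  rw [e1]
  exact mul_le_mul_of_nonneg_left h4 (by positivity)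

/-- exponential polynomials with total mass `≤ B`, spectral gap `≥ γ` and mean `M` -/
def EP (F : ℝ → ℂ) (B γ : ℝ) (M : ℂ) : Prop :=
  ∃ (ι : Type) (s : Finset ι) (c : ι → ℂ) (w : ι → ℝ), (∀ t, F t = ∑ i ∈ s, c i * e (w i * t)) ∧
    ∑ i ∈ s, ‖c i‖ ≤ B ∧ (∀ i ∈ s, w i = 0 ∨ γ ≤ |w i|) ∧ M = ∑ i ∈ s, if w i = 0 then c i else 0

lemma e_continuous : Continuous e := by
  unfold e
  fun_prop

lemma EP.cont {F : ℝ → ℂ} {B γ : ℝ} {M : ℂ} (h : EP F B γ M) : Continuous F := by
  obtain ⟨ι, s, c, w, h1, -⟩ := h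
  have : F = fun t => ∑ i ∈ s, c i * e (w i * t) := funext h1
  rw [this]
  exact continuous_finsetSum _ fun i _ => continuous_const.mul (e_continuous.comp (by fun_prop))

/-- the mean along one sequence -/
lemma mean1 {F : ℝ → ℂ} {B γ : ℝ} {M : ℂ} (h : EP F B γ M) {a c d θ : ℝ} (hcd : c ≤ d) (ha : 1 ≤ a)
    (hγ : Real.exp (-(θ * a)) ≤ γ) :
    ‖(∫ y in c..d, F (Real.exp (a * y))) - (d - c) * M‖ ≤ B * ((2 + (d - c)) * Real.exp (-((c - θ) * a))) := by
  obtain ⟨ι, s, cf, w, h1, h2, h3, h4⟩ := h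
  have hdc : 0 ≤ d - c := by linarith
  set E := (2 + (d - c)) * Real.exp (-((c - θ) * a)) with hE
  have hE0 : 0 ≤ E := by positivity
  have e1 : ∫ y in c..d, F (Real.exp (a * y)) = ∑ i ∈ s, cf i * ∫ y in c..d, e (w i * Real.exp (a * y)) := by
    simp_rw [h1]
    rw [intervalIntegral.integral_finsetSum]
    · exact Finset.sum_congr rfl fun i _ => intervalIntegral.integral_const_mul _ _
    · intro i _
      exact (continuous_const.mul (e_continuous.comp (by fun_prop))).intervalIntegrable _ _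
  rw [e1, h4, Finset.mul_sum, ← Finset.sum_sub_distrib]
  refine (norm_sum_le _ _).trans ?_
  calc ∑ i ∈ s, ‖cf i * (∫ y in c..d, e (w i * Real.exp (a * y))) - (d - c) * (if w i = 0 then cf i else 0)‖ ≤
      ∑ i ∈ s, ‖cf i‖ * E := by
        refine Finset.sum_le_sum fun i hi => ?_
        rcases eq_or_ne (w i) 0 with h0 | h0
        · rw [h0, if_pos rfl]
          simp only [zero_mul, e_zero]
          rw [intervalIntegral.integral_const]
          have : cf i * ((d - c) • (1:ℂ)) - (d - c) * cf i = 0 := by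
            rw [Complex.real_smul]; push_cast; ring
          rw [this, norm_zero]
          positivity
        · rw [if_neg h0, mul_zero, sub_zero, norm_mul]
          refine mul_le_mul_of_nonneg_left ?_ (norm_nonneg _)
          rcases h3 i hi with h5 | h5
          · exact absurd h5 h0
          · exact one hcd ha (hγ.trans h5)
    _ = (∑ i ∈ s, ‖cf i‖) * E := by rw [Finset.sum_mul]
    _ ≤ B * E := mul_le_mul_of_nonneg_right h2 hE0

/-- the correlation along two sequences -/
lemma mean2 {F G : ℝ → ℂ} {B γ B' γ' : ℝ} {M M' : ℂ} (hF : EP F B γ M) (hG : EP G B' γ' M')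
    {a b c d δ θ : ℝ} (hc : 0 < c) (hcd : c ≤ d) (hd : d ≤ 11 / 10 * c) (hδ : 0 < δ) (hb : 1 ≤ b)
    (hab : b + δ ≤ a) (hab2 : a ≤ 2 * b) (hθ : θ ≤ c / 40) (hθ0 : 0 ≤ θ)
    (hγ : Real.exp (-(θ * a)) ≤ γ) (hγ' : Real.exp (-(θ * b)) ≤ γ') (hB : B ≤ Real.exp (θ * a))
    (hB' : B' ≤ Real.exp (θ * b)) :
    ‖(∫ y in c..d, F (Real.exp (a * y)) * G (Real.exp (b * y))) - (d - c) * (M * M')‖ ≤
      (2 * C2 c d δ + 2 + (d - c)) * b * Real.exp (-(c / 8 * b)) := by
  obtain ⟨ι, s, cf, w, h1, h2, h3, h4⟩ := hF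
  obtain ⟨ι', s', cg, w', k1, k2, k3, k4⟩ := hG
  have hdc : 0 ≤ d - c := by linarith
  have hC2 := C2_pos hcd hδ
  have hb0 : 0 < b := by linarith
  have ha1 : 1 ≤ a := by linarith
  have ha0 : 0 < a := by linarith
  set E := (2 * C2 c d δ + 2 + (d - c)) * b * Real.exp (-((c / 4 - θ) * b)) with hE
  have hE0 : 0 ≤ E := by positivity
  have e1 : ∫ y in c..d, F (Real.exp (a * y)) * G (Real.exp (b * y)) =
      ∑ i ∈ s, ∑ j ∈ s', (cf i * cg j) * ∫ y in c..d, e (w i * Real.exp (a * y) + w' j * Real.exp (b * y)) := by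
    have e2 : ∀ y : ℝ, F (Real.exp (a * y)) * G (Real.exp (b * y)) =
        ∑ i ∈ s, ∑ j ∈ s', (cf i * cg j) * e (w i * Real.exp (a * y) + w' j * Real.exp (b * y)) := by
      intro y
      rw [h1, k1, Finset.sum_mul_sum]
      refine Finset.sum_congr rfl fun i _ => Finset.sum_congr rfl fun j _ => ?_
      rw [e_add]; ring
    simp_rw [e2]
    rw [intervalIntegral.integral_finsetSum]
    · refine Finset.sum_congr rfl fun i _ => ?_
      rw [intervalIntegral.integral_finsetSum]
      · exact Finset.sum_congr rfl fun j _ => intervalIntegral.integral_const_mul _ _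
      · intro j _
        exact (continuous_const.mul (e_continuous.comp (by fun_prop))).intervalIntegrable _ _
    · intro i _
      refine Continuous.intervalIntegrable ?_ _ _
      exact continuous_finsetSum _ fun j _ => continuous_const.mul (e_continuous.comp (by fun_prop))
  have e3 : ((d:ℂ) - c) * (M * M') = ∑ i ∈ s, ∑ j ∈ s',
      ((d:ℂ) - c) * ((if w i = 0 then cf i else 0) * (if w' j = 0 then cg j else 0)) := by
    rw [h4, k4, Finset.sum_mul_sum, Finset.mul_sum]
    exact Finset.sum_congr rfl fun i _ => by rw [Finset.mul_sum]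
  rw [e1, e3, ← Finset.sum_sub_distrib]
  have hterm : ∀ i ∈ s, ∀ j ∈ s', ‖(cf i * cg j) * (∫ y in c..d, e (w i * Real.exp (a * y) + w' j * Real.exp (b * y))) -
      ((d:ℂ) - c) * ((if w i = 0 then cf i else 0) * (if w' j = 0 then cg j else 0))‖ ≤ ‖cf i‖ * ‖cg j‖ * E := by
    intro i hi j hj
    rcases eq_or_ne (w i) 0 with h0 | h0
    · rcases eq_or_ne (w' j) 0 with k0 | k0
      · rw [h0, k0, if_pos rfl, if_pos rfl]
        simp only [zero_mul, add_zero, e_zero]
        rw [intervalIntegral.integral_const]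
        have : cf i * cg j * ((d - c) • (1:ℂ)) - ((d:ℂ) - c) * (cf i * cg j) = 0 := by
          rw [Complex.real_smul]; push_cast; ring
        rw [this, norm_zero]
        positivity
      · rw [if_neg k0, mul_zero, mul_zero, sub_zero, h0, norm_mul, norm_mul]
        refine mul_le_mul_of_nonneg_left ?_ (by positivity)
        simp only [zero_mul, zero_add]
        rcases k3 j hj with h5 | h5
        · exact absurd h5 k0
        · refine (one hcd hb (hγ'.trans h5)).trans ?_
          rw [hE]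
          have h6 : Real.exp (-((c - θ) * b)) ≤ Real.exp (-((c / 4 - θ) * b)) := by
            apply Real.exp_le_exp.mpr
            have : 0 ≤ c * b := by positivity
            linarith
          have h7 : 2 + (d - c) ≤ (2 * C2 c d δ + 2 + (d - c)) * b := by nlinarith
          exact mul_le_mul h7 h6 (Real.exp_pos _).le (by positivity)
    · have e5 : (if w i = 0 then cf i else 0) = 0 := if_neg h0
      rw [e5, zero_mul, mul_zero, sub_zero, norm_mul, norm_mul]
      refine mul_le_mul_of_nonneg_left ?_ (by positivity)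
      rcases h3 i hi with h5 | h5
      · exact absurd h5 h0
      · refine (two hc hcd hd hδ ha1 hb0 hab (hθ.trans (by linarith)) (hγ.trans h5)).trans ?_
        rw [hE]
        have h6 : Real.exp (-(c / 4 * a)) ≤ Real.exp (-((c / 4 - θ) * b)) := by
          apply Real.exp_le_exp.mpr
          have h8 : c / 4 * b ≤ c / 4 * a := mul_le_mul_of_nonneg_left (by linarith) (by linarith)
          have : 0 ≤ θ * b := by positivity
          linarith
        have h7 : C2 c d δ * a ≤ (2 * C2 c d δ + 2 + (d - c)) * b := by nlinarith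
        exact mul_le_mul h7 h6 (Real.exp_pos _).le (by positivity)
  refine (norm_sum_le _ _).trans ?_
  calc ∑ i ∈ s, ‖(∑ j ∈ s', (cf i * cg j) * ∫ y in c..d, e (w i * Real.exp (a * y) + w' j * Real.exp (b * y))) -
        ∑ j ∈ s', ((d:ℂ) - c) * ((if w i = 0 then cf i else 0) * (if w' j = 0 then cg j else 0))‖ ≤
      ∑ i ∈ s, ∑ j ∈ s', ‖cf i‖ * ‖cg j‖ * E := by
        refine Finset.sum_le_sum fun i hi => ?_
        rw [← Finset.sum_sub_distrib]
        exact (norm_sum_le _ _).trans (Finset.sum_le_sum fun j hj => hterm i hi j hj)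
    _ = (∑ i ∈ s, ‖cf i‖) * (∑ j ∈ s', ‖cg j‖) * E := by
        rw [Finset.sum_mul_sum, Finset.sum_mul]
        exact Finset.sum_congr rfl fun i _ => by rw [Finset.sum_mul]
    _ ≤ (Real.exp (θ * a) * Real.exp (θ * b)) * E := by
        refine mul_le_mul_of_nonneg_right ?_ hE0
        exact mul_le_mul (h2.trans hB) (k2.trans hB') (Finset.sum_nonneg fun _ _ => norm_nonneg _) (Real.exp_pos _).le
    _ ≤ _ := by
        have e6 : (Real.exp (θ * a) * Real.exp (θ * b)) * E = (2 * C2 c d δ + 2 + (d - c)) * b *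
            (Real.exp (θ * a) * Real.exp (θ * b) * Real.exp (-((c / 4 - θ) * b))) := by rw [hE]; ring
        rw [e6]
        refine mul_le_mul_of_nonneg_left ?_ (by positivity)
        rw [← Real.exp_add, ← Real.exp_add]
        apply Real.exp_le_exp.mpr
        have h9 : θ * a ≤ θ * (2 * b) := mul_le_mul_of_nonneg_left hab2 hθ0
        have h10 : θ * b ≤ c / 40 * b := mul_le_mul_of_nonneg_right hθ hb0.le
        have : 0 ≤ c * b := by positivity
        linarith

end Pool.Agent.Helper932Z
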