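import Pool.Agent.Helper932Z.EP2
import Pool.Agent.TH148.LM_V

/-!
The squares of the products of the truncated exponentials are exponential polynomials.
-/

set_option autoImplicit false

namespace Pool.Agent.Helper932Z

open Finset Filter Topology MeasureTheory Complex MonoidAlgebra
open Pool.Agent.W184.NZ
open Pool.Agent.TH806
open Pool.Agent.TH806.LK
open Pool.Agent.TH626.LK_EXP
open Pool.Agent.TH148.LM_V
open Pool.Agent.TH112.LKC
open Pool.Agent.H469R2.NK (e norm_e e_add conj_e e_zero)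

lemma mh_e (t : ℝ) {m n : ℕ} (hm : m ≠ 0) (hn : n ≠ 0) :
    mh t (m, n) = ((((m:ℝ) * n) ^ (-(1 / 2 : ℝ)) : ℝ) : ℂ) * e ((Real.log n - Real.log m) / (2 * Real.pi) * t) := by
  have m0 : (0:ℝ) < m := by exact_mod_cast Nat.pos_of_ne_zero hm
  have n0 : (0:ℝ) < n := by exact_mod_cast Nat.pos_of_ne_zero hn
  have e0 : mh t (m, n) = (m : ℂ) ^ (-(1 / 2 + t * Complex.I)) * (n : ℂ) ^ (-(1 / 2 - t * Complex.I)) := rfl
  have mc : (m:ℂ) ≠ 0 := by exact_mod_cast hm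
  have nc : (n:ℂ) ≠ 0 := by exact_mod_cast hn
  have hpi : (Real.pi : ℂ) ≠ 0 := by exact_mod_cast Real.pi_ne_zero
  have e1 : ((m:ℝ) * n) ^ (-(1 / 2 : ℝ)) = Real.exp (-(Real.log m + Real.log n) / 2) := by
    rw [Real.rpow_def_of_pos (by positivity), Real.log_mul m0.ne' n0.ne']
    congr 1; ring
  rw [e1, e0, Complex.cpow_def_of_ne_zero mc, Complex.cpow_def_of_ne_zero nc, ← Complex.exp_add,
      Complex.ofReal_exp]
  unfold e
  rw [← Complex.exp_add, ← Complex.natCast_log, ← Complex.natCast_log]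
  congr 1
  push_cast
  field_simp
  ring

lemma log_gap' {N : ℝ} {m n : ℕ} (hm : m ≠ 0) (hn : n ≠ 0) (hmN : (m:ℝ) ≤ N) (hnN : (n:ℝ) ≤ N) (h : m ≠ n) :
    1 / N ≤ |Real.log n - Real.log m| := by
  have key : ∀ a b : ℕ, a ≠ 0 → a < b → (b:ℝ) ≤ N → 1 / N ≤ Real.log b - Real.log a := by
    intro a b ha hab hb
    have h2 := Pool.Agent.W184.log_gap (Nat.pos_of_ne_zero ha) hab
    refine le_trans ?_ h2
    have b0 : (0:ℝ) < b := by exact_mod_cast (by omega : 0 < b)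
    have h3 : (1:ℝ) ≤ (b:ℝ) - a := by
      have : (a:ℝ) + 1 ≤ b := by exact_mod_cast hab
      linarith
    exact div_le_div₀ (by linarith) h3 b0 hb
  rcases lt_or_gt_of_ne h with h5 | h5
  · exact (key m n hm h5 hnN).trans (le_abs_self _)
  · rw [abs_sub_comm]
    exact (key n m hn h5 hmN).trans (le_abs_self _)

lemma ep_ev {N : ℝ} (hN : 1 ≤ N) {f : DA} (hf : Bd N f) :
    EP (fun t => ev t f) (l1 f) (1 / (7 * N)) ((lam w0 f : ℝ) : ℂ) := by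
  refine ⟨ℕ × ℕ, f.coeff.support, fun x => (f.coeff x : ℂ) * ((((x.1:ℝ) * x.2) ^ (-(1 / 2 : ℝ)) : ℝ) : ℂ),
    fun x => (Real.log x.2 - Real.log x.1) / (2 * Real.pi), ?_, ?_, ?_, ?_⟩
  · intro t
    simp only
    rw [ev_apply]
    refine sum_congr rfl fun x hx => ?_
    obtain ⟨m, n⟩ := x
    rw [mh_e t (hf _ hx).1.1 (hf _ hx).1.2]
    ring
  · unfold l1
    refine sum_le_sum fun x hx => ?_
    rw [norm_mul, Complex.norm_real, Complex.norm_real, Real.norm_eq_abs, Real.norm_eq_abs]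
    refine mul_le_of_le_one_right (abs_nonneg _) ?_
    have a1 : (1:ℝ) ≤ x.1 := by exact_mod_cast Nat.pos_of_ne_zero (hf x hx).1.1
    have a2 : (1:ℝ) ≤ x.2 := by exact_mod_cast Nat.pos_of_ne_zero (hf x hx).1.2
    rw [abs_of_nonneg (by positivity)]
    refine Real.rpow_le_one_of_one_le_of_nonpos ?_ (by norm_num)
    nlinarith
  · intro x hx
    simp only
    by_cases h : x.1 = x.2
    · left; rw [h, sub_self, zero_div]
    · right
      have h1 := log_gap' (hf x hx).1.1 (hf x hx).1.2 (hf x hx).2.1 (hf x hx).2.2 h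
      have hpi0 := Real.pi_pos
      rw [abs_div, abs_of_pos (by positivity : 0 < 2 * Real.pi), div_le_div_iff₀ (by positivity) (by positivity)]
      have h2 : 1 ≤ |Real.log x.2 - Real.log x.1| * N := by
        rw [div_le_iff₀ (by linarith)] at h1
        exact h1
      have h3 : Real.pi < 3.15 := Real.pi_lt_d2
      nlinarith
  · rw [lam_apply, Finsupp.sum]
    push_cast
    refine sum_congr rfl fun x hx => ?_
    have m0 : (0:ℝ) < x.1 := by exact_mod_cast Nat.pos_of_ne_zero (hf x hx).1.1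
    have n0 : (0:ℝ) < x.2 := by exact_mod_cast Nat.pos_of_ne_zero (hf x hx).1.2
    by_cases h : x.1 = x.2
    · have e0 : (Real.log x.2 - Real.log x.1) / (2 * Real.pi) = 0 := by rw [h, sub_self, zero_div]
      rw [if_pos e0]
      unfold w0
      rw [if_pos h, h]
      have e : ((x.2:ℝ) * x.2) ^ (-(1 / 2 : ℝ)) = 1 / x.2 := by
        rw [← pow_two, ← Real.rpow_natCast, ← Real.rpow_mul n0.le]
        norm_num
        rw [Real.rpow_neg_one]
      rw [e]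
    · have e0 : (Real.log x.2 - Real.log x.1) / (2 * Real.pi) ≠ 0 := by
        have hpi0 := Real.pi_pos
        refine div_ne_zero ?_ (by positivity)
        intro h5
        have h6 : Real.log x.2 = Real.log x.1 := by linarith
        have h7 := Real.log_injOn_pos (Set.mem_Ioi.mpr n0) (Set.mem_Ioi.mpr m0) h6
        exact h (by exact_mod_cast h7.symm)
      rw [if_neg e0]
      unfold w0
      rw [if_neg h]
      simp

lemma EP.mono {F : ℝ → ℂ} {B B' γ γ' : ℝ} {M : ℂ} (h : EP F B γ M) (hB : B ≤ B') (hγ : γ' ≤ γ) :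
    EP F B' γ' M := by
  obtain ⟨ι, s, c, w, h1, h2, h3, h4⟩ := h
  exact ⟨ι, s, c, w, h1, h2.trans hB, fun i hi => (h3 i hi).imp id fun h => hγ.trans h, h4⟩

lemma EP.sum {τ : Type} (s : Finset τ) (cf : τ → ℂ) {F : τ → ℝ → ℂ} {B γ : ℝ} {M : τ → ℂ}
    (h : ∀ φ ∈ s, EP (F φ) B γ (M φ)) :
    EP (fun t => ∑ φ ∈ s, cf φ * F φ t) ((∑ φ ∈ s, ‖cf φ‖) * B) γ (∑ φ ∈ s, cf φ * M φ) := by
  classical
  have h' : ∀ φ : τ, ∃ (ι : Type) (s' : Finset ι) (c : ι → ℂ) (w : ι → ℝ), φ ∈ s →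
      ((∀ t, F φ t = ∑ i ∈ s', c i * e (w i * t)) ∧ ∑ i ∈ s', ‖c i‖ ≤ B ∧
        (∀ i ∈ s', w i = 0 ∨ γ ≤ |w i|) ∧ M φ = ∑ i ∈ s', if w i = 0 then c i else 0) := by
    intro φ
    by_cases hφ : φ ∈ s
    · obtain ⟨ι, s', c, w, hh⟩ := h φ hφ
      exact ⟨ι, s', c, w, fun _ => hh⟩
    · exact ⟨ℕ, ∅, 0, 0, fun h => absurd h hφ⟩
  choose ι s' c w hh using h'
  refine ⟨Σ φ : τ, ι φ, s.sigma s', fun x => cf x.1 * c x.1 x.2, fun x => w x.1 x.2, ?_, ?_, ?_, ?_⟩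
  · intro t
    rw [sum_sigma]
    refine sum_congr rfl fun φ hφ => ?_
    rw [(hh φ hφ).1, mul_sum]
    exact sum_congr rfl fun i _ => by ring
  · rw [sum_sigma, sum_mul]
    refine sum_le_sum fun φ hφ => ?_
    simp only [norm_mul]
    rw [← mul_sum]
    exact mul_le_mul_of_nonneg_left (hh φ hφ).2.1 (norm_nonneg _)
  · rintro ⟨φ, i⟩ hx
    rw [mem_sigma] at hx
    exact (hh φ hx.1).2.2.1 i hx.2
  · rw [sum_sigma]
    refine sum_congr rfl fun φ hφ => ?_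
    rw [(hh φ hφ).2.2.2, mul_sum]
    refine sum_congr rfl fun i _ => ?_
    by_cases h0 : w φ i = 0
    · simp [h0]
    · simp [h0]

/-- products of block polynomials -/
lemma ep_prod {T : ℝ} (hT : 1 < T) {c Q C : ℝ} {J : ℕ} {I : ℕ → Finset ℕ} {b : ℕ → ℝ} {K : ℕ → ℕ}
    {f : ℕ → ℂ → ℂ} {ν : ℕ → Measure (ℂ × ℂ)} (hR : Rg c J I b) (hν : ∀ i < J, LW w0 0 0 Q C (I i) (ν i))
    (hf : ∀ i < J, 1 ≤ K i ∧ PB (K i) (f i))
    (hsum : ∑ i ∈ range J, (K i : ℝ) * Real.log (b i) ≤ 1 / 100 * Real.log T) :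
    EP (fun t => ∏ i ∈ range J, f i (zz I t i)) (T ^ (3 / 100 : ℝ)) (T ^ (-(1 / 50) : ℝ) / 7)
      (∏ i ∈ range J, ∫ q, q.2 * f i q.1 ∂(ν i)) := by
  have hT0 : 0 < T := by linarith
  have hIp : ∀ i, ∀ p ∈ I i, p.Prime := fun i p hp => (hR.pr i p hp).1
  have hIb : ∀ i, ∀ p ∈ I i, p.Prime ∧ (p:ℝ) ≤ b i := fun i p hp => ⟨(hR.pr i p hp).1, (hR.pr i p hp).2.2⟩
  have hb1 : ∀ i < J, 1 ≤ b i := fun i hi => by linarith [hR.b10 i hi]
  have hb0 : ∀ i < J, 0 < b i := fun i hi => by linarith [hR.b10 i hi]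
  have hcex : ∀ i, ∃ c : ℕ → ℕ → ℂ, i < J → (∀ k l, ‖c k l‖ ≤ 2 ^ (K i)) ∧ ∀ z, f i z = Fc (K i) c z := by
    intro i
    by_cases hi : i < J
    · obtain ⟨c, h1, h2⟩ := (hf i hi).2
      exact ⟨c, fun _ => ⟨h1, h2⟩⟩
    · exact ⟨0, fun h => absurd h hi⟩
  choose cc hcc using hcex
  set N : ℝ := ∏ i ∈ range J, b i ^ (2 * K i) with hN
  have hN1 : 1 ≤ N := by
    rw [hN]
    have : ∀ i ∈ range J, (1:ℝ) ≤ b i ^ (2 * K i) := fun i hi => one_le_pow₀ (hb1 i (mem_range.1 hi))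
    calc (1:ℝ) = ∏ _i ∈ range J, (1:ℝ) := by rw [prod_const_one]
      _ ≤ _ := prod_le_prod (fun _ _ => zero_le_one) this
  have hNT : N ≤ T ^ (1 / 50 : ℝ) := by
    have := prod_pow_le hT0 hb0 hsum 2
    have e : ((2:ℕ) : ℝ) * (1 / 100) = 1 / 50 := by norm_num
    rw [e] at this
    exact this
  have hST : ∏ i ∈ range J, b i ^ (K i) ≤ T ^ (1 / 100 : ℝ) := by
    have := prod_pow_le hT0 hb0 hsum 1
    simp only [one_mul, Nat.cast_one] at this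
    exact this
  have e1 : ∀ t : ℝ, ∏ i ∈ range J, f i (zz I t i) = ∑ φ ∈ ix J K, cf cc φ * ev t (mon I φ) := by
    intro t
    rw [← exp_ev hIp]
    exact prod_congr rfl fun i hi => (hcc i (mem_range.1 hi)).2 _
  have e2 : ∏ i ∈ range J, ∫ q, q.2 * f i q.1 ∂(ν i) =
      ∑ φ ∈ ix J K, cf cc φ * ((lam w0 (mon I φ) : ℝ) : ℂ) := by
    rw [← exp_law hν K cc (mon_lam goodW0 hIp hR.dj)]
    refine prod_congr rfl fun i hi => ?_
    refine integral_congr_ae (Eventually.of_forall fun q => ?_)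
    simp only
    rw [(hcc i (mem_range.1 hi)).2]
  rw [e2]
  have e3 : (fun t => ∏ i ∈ range J, f i (zz I t i)) = fun t => ∑ φ ∈ ix J K, cf cc φ * ev t (mon I φ) :=
    funext e1
  rw [e3]
  have h1 := EP.sum (ix J K) (cf cc) (F := fun φ t => ev t (mon I φ)) (B := N) (γ := 1 / (7 * N))
    (M := fun φ => ((lam w0 (mon I φ) : ℝ) : ℂ)) (fun φ hφ =>
      (ep_ev hN1 (mon_Bd hb1 hIb hφ)).mono (mon_l1 hb1 hIb hφ) le_rfl)
  refine h1.mono ?_ ?_
  · have h5 := sum_cf_PB (c := cc) (fun i hi => (hf i hi).1) hR.b10 (fun i hi => (hcc i hi).1)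
    calc (∑ φ ∈ ix J K, ‖cf cc φ‖) * N ≤ T ^ (1 / 100 : ℝ) * T ^ (1 / 50 : ℝ) :=
          mul_le_mul (h5.trans hST) hNT (by linarith) (by positivity)
      _ = T ^ (3 / 100 : ℝ) := by rw [← Real.rpow_add hT0]; norm_num
  · rw [Real.rpow_neg hT0.le, div_le_div_iff₀ (by norm_num) (by positivity), one_mul]
    have h6 : (T ^ (1 / 50 : ℝ))⁻¹ * N ≤ 1 := by
      rw [inv_mul_le_iff₀ (by positivity), mul_one]
      exact hNT
    linarith

/-- the square of the product of the truncated exponentials -/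
theorem ep_AZ (n : ℕ) (c : ℝ) (hn : 1 ≤ n) (hc : 0 ≤ c) :
    ∃ (P₀ : ℕ) (C : ℝ), 0 < C ∧ ∀ Rs : ℕ, 1 ≤ Rs → ∀ T : ℝ, 1 < T →
      ∀ (y : ℝ) (J : ℕ) (I : ℕ → Finset ℕ), Cfg c 1 P₀ y J I →
        n * ((Rs:ℝ) + 1) * Real.log y ≤ 1 / 32000 * Real.log T → ∀ a : ℝ, |a| ≤ n →
          ∃ M : ℂ, ‖M‖ ≤ C * Real.exp (a ^ 2 * VV I J) ∧
            EP (fun t => ((‖AZ n Rs J a (zz I t)‖ ^ 2 : ℝ) : ℂ)) (T ^ (3 / 100 : ℝ)) (T ^ (-(1 / 50) : ℝ) / 7) M := by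
  have hA := a_ALG
  have hL := a_LAW
  have hP := a_PRD
  have hQ : (1:ℝ) ≤ 8 * n + 8 := by
    have : (0:ℝ) ≤ n := Nat.cast_nonneg n
    linarith
  obtain ⟨P₀, C, hP₀, hC1, hL⟩ := hL (8 * n + 8) hQ
  obtain ⟨C₃, hC₃, e₀, he₀, R₀, hP⟩ := hP n c C hn hc
  refine ⟨P₀, C₃, hC₃, fun Rs hRs T hT y J I hC hlen a ha => ?_⟩
  have hν : ∀ i, ∃ ν, LW w0 0 0 (8 * n + 8) C (I i) ν := fun i =>
    (hL (I i) fun p hp => ⟨(hC.rg.pr i p hp).1, hC.P i p hp⟩).1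
  choose ν hν using hν
  have hy1 : 1 ≤ y := by linarith [hC.y1]
  have h0m : (0:ℝ) ∈ Set.Icc (-1:ℝ) 1 := ⟨by norm_num, by norm_num⟩
  have hP1 := (hP J Rs I (bb y) ν hC.rg hRs).1 w0 0 le_rfl zero_le_one (fun i _ => hν i) a 0 0 ha
    (by norm_num) (by norm_num)
  have hE : (2 * 0 * a + a ^ 2 - ((0:ℝ) + 0) ^ 2 / 4) * VV I J = a ^ 2 * VV I J := by ring
  rw [hE] at hP1
  refine ⟨∏ i ∈ range J, ∫ q, q.2 * LK.BF (KK n Rs i) a a 0 0 q.1 ∂(ν i), ?_, ?_⟩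
  · rw [norm_prod]
    exact hP1.1
  · have e1 : (fun t => ((‖AZ n Rs J a (zz I t)‖ ^ 2 : ℝ) : ℂ)) =
        fun t => ∏ i ∈ range J, LK.BF (KK n Rs i) a a 0 0 (zz I t i) := funext fun t => AZ_sq n Rs J a (zz I t)
    rw [e1]
    refine ep_prod hT hC.rg (fun i _ => hν i) (K := fun i => 4 * KK n Rs i) (fun i _ => ?_) (len_le hy1 J hlen)
    have h2 := GG_PB hA hn hRs ha 0 (i + 1) i h0m h0m
    have hne : i ≠ i + 1 := by omega
    have e2 : GG 0 (KK n Rs) (RR Rs) a (i + 1) i 0 0 = LK.BF (KK n Rs i) a a 0 0 := by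
      funext z
      simp only [GG, hne, if_false]
    rw [e2] at h2
    refine ⟨?_, h2.1⟩
    have : 1 * 1 ≤ n * RR Rs i := Nat.mul_le_mul hn (by unfold RR; omega)
    unfold KK
    nlinarith

end Pool.Agent.Helper932Z
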