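import Pool.Agent.Helper932Z.Conf
import Pool.Agent.Helper932Z.Chg

/-!
For every level a set of heights and a majorant which is an exponential polynomial.
-/

set_option autoImplicit false

namespace Pool.Agent.Helper932Z

open Finset Filter Topology MeasureTheory Complex MonoidAlgebra
open Pool.Agent.W184.NZ
open Pool.Agent.TH806 Pool.Agent.TH806.LK Pool.Agent.TH806.LM Pool.Agent.TH806.LS

lemma EP.contR {F : ℝ → ℝ} {B γ : ℝ} {M : ℂ} (h : EP (fun t => (F t : ℂ)) B γ M) : Continuous F := by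
  have h1 := h.cont
  have h2 : F = fun t => ((F t : ℂ)).re := by funext t; simp
  rw [h2]
  exact Complex.continuous_re.comp h1

lemma num_grid {k L u v : ℝ} (hL : 0 < L) (hu : u = k * L + v) (hv : v ^ 2 ≤ L) :
    k ^ 2 * L - 1 ≤ 2 * k * u - u ^ 2 / L := by
  have e1 : 2 * k * u - u ^ 2 / L = k ^ 2 * L - v ^ 2 / L := by
    rw [hu]; field_simp; ring
  rw [e1]
  have : v ^ 2 / L ≤ 1 := by rw [div_le_one hL]; exact hv
  linarith

theorem key {p q θ : ℝ} (hp : 0 < p) (hpq : p ≤ q) (hq : q ≤ 2 * p) (hθ : 0 < θ) :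
    ∃ c C W A₀ : ℝ, 0 < c ∧ 0 < C ∧ 0 < W ∧ ∀ σ : ℝ, (σ = 1 ∨ σ = -1) → ∀ k : ℝ, |k| ≤ 1 → ∀ a : ℝ, A₀ ≤ a →
      ∃ (S : Set ℝ) (F : ℝ → ℝ) (M : ℂ), MeasurableSet S ∧ (∀ t, 0 ≤ F t) ∧
        EP (fun t => (F t : ℂ)) (Real.exp (θ * a)) (Real.exp (-(θ * a))) M ∧
        ‖M‖ ≤ C * Real.exp (k ^ 2 * Real.log a) ∧
        (∀ t ∈ S, F t ≤ C * Real.exp (2 * k ^ 2 * Real.log a + 2 * √(Real.log a))) ∧
        (∀ t ∈ S, 0 < σ * Zr t ∧ 0 < Xz t ∧ |Real.log (Xz t) - k * Real.log a| ≤ √(Real.log a) + W) ∧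
        ∀ c' d' : ℝ, p ≤ c' → c' < d' → d' ≤ q → 2 ≤ a * (d' - c') →
          c * (d' - c') * Real.exp (k ^ 2 * Real.log a) ≤ ∫ y in Set.Icc c' d', S.indicator F (Real.exp (a * y)) := by
  obtain ⟨n, Rs, B', K, c₁, C₁, A₁, hn1, hRs1, hB', hK, hc₁, hC₁, hcf⟩ := conf hp hpq hq hθ
  have hn1R : (1:ℝ) ≤ n := by exact_mod_cast hn1
  refine ⟨c₁ * Real.exp (-(2 * B' + 1)) / (96 * B'), C₁ + 4 * Real.exp (2 * B'), K + B',
    max A₁ (Real.exp (4 + 36 * B' ^ 2)), by positivity, by positivity, by positivity, ?_⟩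
  intro σ hσ k hk a ha
  obtain ⟨J, I, hIp, hw, hM⟩ := hcf a ((le_max_left _ _).trans ha)
  obtain ⟨M, hM1, hM2⟩ := hM k hk
  have hea : Real.exp (4 + 36 * B' ^ 2) ≤ a := (le_max_right _ _).trans ha
  have ha0 : 0 < a := (Real.exp_pos _).trans_le hea
  have ha1 : 1 ≤ a := by
    have := Real.add_one_le_exp (4 + 36 * B' ^ 2)
    nlinarith [sq_nonneg B']
  set L := Real.log a with hL
  have hL1 : 4 + 36 * B' ^ 2 ≤ L := by
    have := Real.log_le_log (Real.exp_pos _) hea
    rwa [Real.log_exp] at this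
  have hL0 : 0 < L := by nlinarith [sq_nonneg B']
  have hL4 : 4 ≤ L := by nlinarith [sq_nonneg B']
  set s := √L with hs
  have hs0 : 0 < s := Real.sqrt_pos.mpr hL0
  have hss : s ^ 2 = L := Real.sq_sqrt hL0.le
  have hs6 : 6 * B' ≤ s := by
    apply Real.le_sqrt_of_sq_le
    nlinarith
  have hs2 : s ≤ L / 2 := by
    have h2 : 2 ≤ s := by
      apply Real.le_sqrt_of_sq_le
      linarith
    rw [← hss]
    nlinarith
  set F : ℝ → ℝ := fun t => ‖AZ n Rs J k (zz I t)‖ ^ 2 with hF
  set S : Set ℝ := EE Rs J I K ∩ {t | |xx I J t - k * L| ≤ s + B'} ∩ Sg σ with hS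
  have cz : ∀ i, Continuous fun t => zz I t i := fun i =>
    (continuous_apply i).comp (Pool.Agent.TH112.LKC.zz_cont hIp)
  have mS : MeasurableSet S := by
    refine ((EE_meas cz K).inter ?_).inter (Sg_meas a_ZR.2.2 σ)
    exact measurableSet_le (((xx_cont cz).sub continuous_const).abs.measurable) measurable_const
  have cF : Continuous F := hM2.contR
  have F0 : ∀ t, 0 ≤ F t := fun t => by simp only [hF]; positivity
  have hkn : |k| ≤ n := hk.trans hn1R
  -- pointwise bounds
  have hFE : ∀ t ∈ EE Rs J I K, Real.exp (2 * k * xx I J t) / 4 ≤ F t ∧ F t ≤ 4 * Real.exp (2 * k * xx I J t) := by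
    intro t ht
    obtain ⟨hg, -, -⟩ := ht
    obtain ⟨h1, -⟩ := Pool.Agent.TH126.LK_PT.t_PT.2 n Rs J (zz I t) hn1 hRs1 hg
    obtain ⟨h2, h3⟩ := h1 k hkn
    change Real.exp (k * xx I J t) / 2 ≤ _ at h2
    change _ ≤ 2 * Real.exp (k * xx I J t) at h3
    have e1 : Real.exp (2 * k * xx I J t) = Real.exp (k * xx I J t) ^ 2 := by
      rw [← Real.exp_nat_mul]; congr 1; push_cast; ring
    rw [e1]
    have p0 := Real.exp_pos (k * xx I J t)
    constructor
    · calc Real.exp (k * xx I J t) ^ 2 / 4 = (Real.exp (k * xx I J t) / 2) ^ 2 := by ring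
        _ ≤ _ := pow_le_pow_left₀ (by positivity) h2 2
    · calc F t ≤ (2 * Real.exp (k * xx I J t)) ^ 2 := pow_le_pow_left₀ (norm_nonneg _) h3 2
        _ = _ := by ring
  have hkx : ∀ x u r : ℝ, |x - u| ≤ r → 2 * k * u - 2 * r ≤ 2 * k * x ∧ 2 * k * x ≤ 2 * k * u + 2 * r := by
    intro x u r h
    have h1 : |k * (x - u)| ≤ r := by
      rw [abs_mul]
      calc |k| * |x - u| ≤ 1 * r := mul_le_mul hk h (abs_nonneg _) zero_le_one
        _ = r := one_mul _
    rw [abs_le] at h1
    constructor <;> nlinarith [h1.1, h1.2]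
  refine ⟨S, F, M, mS, F0, hM2, hM1.trans ?_, ?_, ?_, ?_⟩
  · refine mul_le_mul_of_nonneg_right ?_ (Real.exp_pos _).le
    have : 0 < 4 * Real.exp (2 * B') := by positivity
    linarith
  · intro t ht
    obtain ⟨⟨h1, h2⟩, -⟩ := ht
    have h3 := (hkx _ _ _ h2).2
    refine ((hFE t h1).2).trans ?_
    have h4 : Real.exp (2 * k * xx I J t) ≤ Real.exp (2 * B') * Real.exp (2 * k ^ 2 * L + 2 * s) := by
      rw [← Real.exp_add]
      apply Real.exp_le_exp.mpr
      have e : 2 * k * (k * L) = 2 * k ^ 2 * L := by ring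
      linarith
    calc 4 * Real.exp (2 * k * xx I J t) ≤ 4 * (Real.exp (2 * B') * Real.exp (2 * k ^ 2 * L + 2 * s)) := by linarith
      _ = (4 * Real.exp (2 * B')) * Real.exp (2 * k ^ 2 * L + 2 * s) := by ring
      _ ≤ _ := mul_le_mul_of_nonneg_right (by linarith) (Real.exp_pos _).le
  · intro t ht
    obtain ⟨⟨⟨-, h1, h2⟩, h3⟩, h4⟩ := ht
    have hX0 : 0 < Xz t := lt_of_lt_of_le (by positivity) h1
    refine ⟨h4, hX0, ?_⟩
    have l1 := Real.log_le_log (by positivity) h1
    have l2 := Real.log_le_log hX0 h2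
    rw [← Real.exp_add, Real.log_exp] at l1 l2
    have h3 : |xx I J t - k * L| ≤ s + B' := h3
    rw [abs_le] at h3 ⊢
    constructor <;> linarith [h3.1, h3.2]
  · intro c' d' hc' hcd' hd' hlen
    set m : ℕ := ⌊s / (3 * B')⌋₊ with hm
    have hm1 : (m:ℝ) ≤ s / (3 * B') := Nat.floor_le (by positivity)
    have hm2 : s / (3 * B') < m + 1 := Nat.lt_floor_add_one _
    have hm3 : s / (6 * B') ≤ m := by
      have h1 : 1 ≤ s / (6 * B') := by rw [le_div_iff₀ (by positivity)]; linarith
      have h2 : s / (3 * B') = 2 * (s / (6 * B')) := by field_simp; ring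
      linarith
    set u : ℕ → ℝ := fun i => k * L + 3 * B' * i with hu
    set T : ℕ → Set ℝ := fun i => EE Rs J I K ∩ {t | |xx I J t - u i| ≤ B'} ∩ Sg σ with hT
    have mT : ∀ i, MeasurableSet (T i) := fun i => by
      refine ((EE_meas cz K).inter ?_).inter (Sg_meas a_ZR.2.2 σ)
      exact measurableSet_le (((xx_cont cz).sub continuous_const).abs.measurable) measurable_const
    have hv : ∀ i ∈ range m, 0 ≤ 3 * B' * (i:ℝ) ∧ 3 * B' * (i:ℝ) ≤ s := by
      intro i hi
      have h1 : (i:ℝ) ≤ m := by exact_mod_cast (mem_range.mp hi).le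
      refine ⟨by positivity, ?_⟩
      have h2 := h1.trans hm1
      rw [le_div_iff₀ (by positivity)] at h2
      linarith
    have hTS : ∀ i ∈ range m, T i ⊆ S := by
      intro i hi t ht
      obtain ⟨⟨h1, h2⟩, h3⟩ := ht
      refine ⟨⟨h1, ?_⟩, h3⟩
      have h2 : |xx I J t - u i| ≤ B' := h2
      show |xx I J t - k * L| ≤ s + B'
      have h4 : xx I J t - k * L = (xx I J t - u i) + 3 * B' * i := by simp only [hu]; ring
      rw [h4]
      refine (abs_add_le _ _).trans ?_
      rw [abs_of_nonneg (hv i hi).1]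
      linarith [(hv i hi).2]
    have hTd : ∀ i j : ℕ, i ≠ j → ∀ t ∈ T i, t ∉ T j := by
      intro i j hij t hi hj
      have h1 : |xx I J t - u i| ≤ B' := hi.1.2
      have h2 : |xx I J t - u j| ≤ B' := hj.1.2
      have h3 : |u i - u j| ≤ 2 * B' := by
        have : u i - u j = (xx I J t - u j) - (xx I J t - u i) := by ring
        rw [this]
        exact (abs_sub _ _).trans (by linarith)
      have h4 : u i - u j = 3 * B' * ((i:ℝ) - j) := by simp only [hu]; ring
      rw [h4, abs_mul, abs_of_pos (by positivity : 0 < 3 * B')] at h3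
      have h5 : (1:ℝ) ≤ |(i:ℝ) - j| := by
        have h6 : (1:ℤ) ≤ |(i:ℤ) - j| := Int.one_le_abs (by omega)
        exact_mod_cast h6
      nlinarith
    set κ : ℕ → ℝ := fun i => Real.exp (2 * k * u i - 2 * B') / 4 with hκ
    have κ0 : ∀ i, 0 < κ i := fun i => by simp only [hκ]; positivity
    have hpt : ∀ t, ∑ i ∈ range m, (T i).indicator (fun _ => κ i) t ≤ S.indicator F t := by
      intro t
      have hS0 : 0 ≤ S.indicator F t := Set.indicator_nonneg (fun t _ => F0 t) t
      by_cases h : ∃ i ∈ range m, t ∈ T i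
      · obtain ⟨i, hi, ht⟩ := h
        rw [sum_eq_single i (fun j _ hji => Set.indicator_of_notMem (hTd i j (Ne.symm hji) t ht) _)
          (fun h => absurd hi h), Set.indicator_of_mem ht, Set.indicator_of_mem (hTS i hi ht)]
        refine le_trans ?_ (hFE t ht.1.1).1
        simp only [hκ]
        have h1 := (hkx _ _ _ ht.1.2).1
        have h2 := Real.exp_le_exp.mpr h1
        linarith
      · push Not at h
        rw [sum_eq_zero fun i hi => Set.indicator_of_notMem (h i hi) _]
        exact hS0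
    have ce : Continuous fun y : ℝ => Real.exp (a * y) := by fun_prop
    have iT : ∀ i, IntegrableOn (fun y => (T i).indicator (fun _ => κ i) (Real.exp (a * y))) (Set.Icc c' d') := by
      intro i
      have : (fun y => (T i).indicator (fun _ => κ i) (Real.exp (a * y))) =
          {y | Real.exp (a * y) ∈ T i}.indicator fun _ => κ i := by
        funext y; by_cases hy : Real.exp (a * y) ∈ T i <;> simp [hy]
      rw [this]
      exact (integrableOn_const (by rw [Real.volume_Icc]; exact ENNReal.ofReal_ne_top)).indicator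
        (ce.measurable (mT i))
    have iS : IntegrableOn (fun y => S.indicator F (Real.exp (a * y))) (Set.Icc c' d') := by
      have : (fun y => S.indicator F (Real.exp (a * y))) =
          {y | Real.exp (a * y) ∈ S}.indicator fun y => F (Real.exp (a * y)) := by
        funext y; by_cases hy : Real.exp (a * y) ∈ S <;> simp [hy]
      rw [this]
      exact ((cF.comp ce).integrableOn_Icc).indicator (ce.measurable mS)
    have hVol : ∀ i ∈ range m, c₁ * (Real.exp (-((u i) ^ 2 / L)) / s) / 4 * (d' - c') ≤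
        volume.real (Set.Icc c' d' ∩ {y | Real.exp (a * y) ∈ T i}) := by
      intro i hi
      refine chg_low (mT i) ha1 hcd' (by positivity) hlen fun T' hT1 hT2 => ?_
      refine hw σ hσ (u i) ?_ T' ?_ ?_
      · simp only [hu]
        refine (abs_add_le _ _).trans ?_
        rw [abs_mul, abs_of_pos hL0, abs_of_nonneg (hv i hi).1]
        have : |k| * L ≤ 1 * L := mul_le_mul_of_nonneg_right hk hL0.le
        linarith [(hv i hi).2]
      · exact le_trans (Real.exp_le_exp.mpr (mul_le_mul_of_nonneg_left hc' ha0.le)) hT1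
      · exact hT2.trans (Real.exp_le_exp.mpr (mul_le_mul_of_nonneg_left hd' ha0.le))
    have hint : ∑ i ∈ range m, κ i * volume.real (Set.Icc c' d' ∩ {y | Real.exp (a * y) ∈ T i}) ≤
        ∫ y in Set.Icc c' d', S.indicator F (Real.exp (a * y)) := by
      have e1 : ∀ i ∈ range m, κ i * volume.real (Set.Icc c' d' ∩ {y | Real.exp (a * y) ∈ T i}) =
          ∫ y in Set.Icc c' d', (T i).indicator (fun _ => κ i) (Real.exp (a * y)) := by
        intro i _
        have : (fun y => (T i).indicator (fun _ => κ i) (Real.exp (a * y))) =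
            {y | Real.exp (a * y) ∈ T i}.indicator fun _ => κ i := by
          funext y; by_cases hy : Real.exp (a * y) ∈ T i <;> simp [hy]
        have mT' : MeasurableSet {y | Real.exp (a * y) ∈ T i} := ce.measurable (mT i)
        rw [this, setIntegral_indicator mT', setIntegral_const, smul_eq_mul, mul_comm]
      rw [sum_congr rfl e1, ← integral_finsetSum _ fun i _ => iT i]
      exact setIntegral_mono (integrable_finsetSum _ fun i _ => iT i) iS fun y => hpt _
    refine le_trans ?_ hint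
    have hdc : 0 < d' - c' := by linarith
    have hterm : ∀ i ∈ range m, c₁ * Real.exp (-(2 * B' + 1)) / 16 * (Real.exp (k ^ 2 * L) / s) * (d' - c') ≤
        κ i * volume.real (Set.Icc c' d' ∩ {y | Real.exp (a * y) ∈ T i}) := by
      intro i hi
      refine le_trans ?_ (mul_le_mul_of_nonneg_left (hVol i hi) (κ0 i).le)
      have h1 : k ^ 2 * L - 1 ≤ 2 * k * u i - (u i) ^ 2 / L := by
        refine num_grid hL0 (rfl : u i = k * L + 3 * B' * i) ?_
        have := pow_le_pow_left₀ (hv i hi).1 (hv i hi).2 2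
        rwa [hss] at this
      have h2 : Real.exp (-(2 * B' + 1)) * Real.exp (k ^ 2 * L) ≤
          Real.exp (2 * k * u i - 2 * B') * Real.exp (-((u i) ^ 2 / L)) := by
        rw [← Real.exp_add, ← Real.exp_add]
        apply Real.exp_le_exp.mpr
        linarith
      calc c₁ * Real.exp (-(2 * B' + 1)) / 16 * (Real.exp (k ^ 2 * L) / s) * (d' - c') =
            (Real.exp (-(2 * B' + 1)) * Real.exp (k ^ 2 * L)) * (c₁ / 16 / s * (d' - c')) := by ring
        _ ≤ (Real.exp (2 * k * u i - 2 * B') * Real.exp (-((u i) ^ 2 / L))) * (c₁ / 16 / s * (d' - c')) :=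
            mul_le_mul_of_nonneg_right h2 (by positivity)
        _ = _ := by simp only [hκ]; ring
    calc c₁ * Real.exp (-(2 * B' + 1)) / (96 * B') * (d' - c') * Real.exp (k ^ 2 * L) =
          s / (6 * B') * (c₁ * Real.exp (-(2 * B' + 1)) / 16 * (Real.exp (k ^ 2 * L) / s) * (d' - c')) := by
          field_simp; ring
      _ ≤ m * (c₁ * Real.exp (-(2 * B' + 1)) / 16 * (Real.exp (k ^ 2 * L) / s) * (d' - c')) :=
          mul_le_mul_of_nonneg_right hm3 (by positivity)
      _ = ∑ _i ∈ range m, c₁ * Real.exp (-(2 * B' + 1)) / 16 * (Real.exp (k ^ 2 * L) / s) * (d' - c') := by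
          rw [sum_const, card_range, nsmul_eq_mul]
      _ ≤ _ := sum_le_sum hterm

end Pool.Agent.Helper932Z
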