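import Pool.Agent.Helper932Z.Block
import Pool.Agent.Helper932Z.Count

/-!
The divergence part, for almost all `y`.
-/

set_option autoImplicit false

namespace Pool.Agent.Helper932Z

open Filter Topology MeasureTheory
open Pool.Agent.TH806 Pool.Agent.TH806.LS

lemma a_tend {a : ℕ → ℝ} {δ : ℝ} (hδ : 0 < δ) (ha1 : ∀ n, 1 ≤ a n) (hgap : ∀ n, a n + δ ≤ a (n + 1)) :
    Tendsto a atTop atTop := by
  refine tendsto_atTop_mono (a_low ha1 hgap) ?_
  exact tendsto_atTop_add_const_left _ _ (tendsto_natCast_atTop_atTop.const_mul_atTop hδ)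

/-- one level, one sign, one interval -/
lemma level {a b : ℕ → ℝ} {δ p q s : ℝ} (hδ : 0 < δ) (ha1 : ∀ n, 1 ≤ a n) (hgap : ∀ n, a n + δ ≤ a (n + 1))
    (hb : ∀ n, 0 < b n) (hba : Tendsto (fun n => Real.log (b n) / a n) atTop (𝓝 0)) (hp : 0 < p) (hpq : p < q)
    (hq : q ≤ 21 / 20 * p) (hs0 : 0 < s) (hns : ¬ Summable fun n => a n ^ (-(s ^ 2))) {σ : ℝ}
    (hσ : σ = 1 ∨ σ = -1) {k : ℝ} (hk : |k| < s) :
    ∃ W : ℝ, ∀ᵐ y : ℝ, y ∈ Set.Ioo p q → ∃ᶠ n in atTop, 0 < σ * Zr (b n * Real.exp (a n * y)) ∧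
      0 < Xz (b n * Real.exp (a n * y)) ∧
      |Real.log (Xz (b n * Real.exp (a n * y))) - k * Real.log (a n)| ≤ √(Real.log (a n)) + W := by
  have hs1 : s ≤ 1 := by
    by_contra h
    push Not at h
    exact hns (summable_of_gt_one hδ ha1 hgap (by nlinarith))
  have hk2 : k ^ 2 < s ^ 2 := by
    rw [← sq_abs]; exact pow_lt_pow_left₀ hk (abs_nonneg _) (by norm_num)
  have hmono : StrictMono a := strictMono_nat_of_lt_succ fun n => by linarith [hgap n]
  obtain ⟨κ, C, W, hκ, hC, hW, hbl⟩ := block hδ ha1 hgap hb hba hp hpq hq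
  obtain ⟨S, mS, hS, hbl⟩ := hbl σ hσ k (hk.le.trans hs1)
  have ce : ∀ n, Continuous fun y : ℝ => b n * Real.exp (a n * y) := fun n => by fun_prop
  have mS' : ∀ n, MeasurableSet {y : ℝ | b n * Real.exp (a n * y) ∈ S n} := fun n => (ce n).measurable (mS n)
  set G : Set ℝ := {y | ∃ᶠ n in atTop, b n * Real.exp (a n * y) ∈ S n} with hG
  have mG : MeasurableSet G := by
    have : G = ⋂ N : ℕ, ⋃ n ≥ N, {y : ℝ | b n * Real.exp (a n * y) ∈ S n} := by
      ext y
      simp [hG, frequently_atTop]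
    rw [this]
    exact MeasurableSet.iInter fun N => MeasurableSet.iUnion fun n => MeasurableSet.iUnion fun _ => mS' n
  have hfull := full_density (p := p) (q := q) hκ (η := 1) one_pos mG (fun c d hc hcd hd _ => by
    refine limsup_low (S := fun n => {y : ℝ | b n * Real.exp (a n * y) ∈ S n}) mS' fun N => ?_
    obtain ⟨A₁, hA⟩ := hbl c d hc hcd hd
    obtain ⟨A, hA1, u, hu, hune, hcard⟩ := count_big hδ ha1 hgap hns (sq_nonneg s) hk2 C (max A₁ (a N + 1))
    refine (hA A ((le_max_left _ _).trans hA1) u hu hune hcard).trans (measureReal_mono ?_ ?_)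
    · rintro y ⟨hy, n, hn, hyn⟩
      refine ⟨hy, ?_⟩
      simp only [Set.mem_iUnion]
      refine ⟨n, ?_, hyn⟩
      by_contra hlt
      have h1 := hmono (not_le.mp hlt)
      have h2 := (le_max_right A₁ (a N + 1)).trans hA1
      linarith [(hu n hn).1]
    · exact ne_top_of_le_ne_top (by rw [Real.volume_Icc]; exact ENNReal.ofReal_ne_top)
        (measure_mono Set.inter_subset_left))
  refine ⟨W, ?_⟩
  filter_upwards [hfull] with y hy hyI
  exact (hy hyI).mono fun n hn => hS n _ hn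

theorem low_y {a b : ℕ → ℝ} {δ s : ℝ} (hδ : 0 < δ) (ha1 : ∀ n, 1 ≤ a n) (hgap : ∀ n, a n + δ ≤ a (n + 1))
    (hb : ∀ n, 0 < b n) (hba : Tendsto (fun n => Real.log (b n) / a n) atTop (𝓝 0)) (hs0 : 0 < s)
    (hns : ¬ Summable fun n => a n ^ (-(s ^ 2))) :
    ∀ᵐ y : ℝ, 0 < y → ∀ σ : ℝ, (σ = 1 ∨ σ = -1) → ∀ r : ℝ, |r| < s → ∀ ε : ℝ, 0 < ε →
      ∃ᶠ n in atTop, 0 < σ * Zr (b n * Real.exp (a n * y)) ∧
        a n ^ (r - ε) ≤ Xz (b n * Real.exp (a n * y)) ∧ Xz (b n * Real.exp (a n * y)) ≤ a n ^ (r + ε) := by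
  have hall : ∀ p : ℚ, ∀ k : ℚ, ∀ σ : Bool, ∀ᵐ y : ℝ, 0 < (p:ℝ) → |(k:ℝ)| < s →
      ∃ W : ℝ, y ∈ Set.Ioo (p:ℝ) (21 / 20 * p) → ∃ᶠ n in atTop,
        0 < (if σ then (1:ℝ) else -1) * Zr (b n * Real.exp (a n * y)) ∧
      0 < Xz (b n * Real.exp (a n * y)) ∧
      |Real.log (Xz (b n * Real.exp (a n * y))) - k * Real.log (a n)| ≤ √(Real.log (a n)) + W := by
    intro p k σ
    by_cases hp : 0 < (p:ℝ)
    · by_cases hk : |(k:ℝ)| < s
      · obtain ⟨W, hW⟩ := level (p := p) (q := 21 / 20 * p) (σ := if σ then (1:ℝ) else -1) hδ ha1 hgap hb hba hp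
          (by linarith) le_rfl hs0 hns (by cases σ <;> simp) hk
        filter_upwards [hW] with y hy _ _
        exact ⟨W, hy⟩
      · exact Eventually.of_forall fun y _ h => absurd h hk
    · exact Eventually.of_forall fun y h => absurd h hp
  filter_upwards [ae_all_iff.mpr fun p => ae_all_iff.mpr fun k => ae_all_iff.mpr (hall p k)] with y hy hy0 σ hσ r hr ε hε
  obtain ⟨p, hp1, hp2⟩ := exists_rat_btwn (show 20 / 21 * y < y by linarith)
  have hp0 : 0 < (p:ℝ) := lt_trans (by positivity) hp1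
  obtain ⟨k, hk1, hk2⟩ : ∃ k : ℚ, |(k:ℝ)| < s ∧ |(k:ℝ) - r| < ε / 2 := by
    rw [abs_lt] at hr
    obtain ⟨k, h1, h2⟩ := exists_rat_btwn (show max (-s) (r - ε / 2) < r from max_lt hr.1 (by linarith))
    refine ⟨k, ?_, ?_⟩
    · rw [abs_lt]
      exact ⟨lt_of_le_of_lt (le_max_left _ _) h1, h2.trans hr.2⟩
    · rw [abs_lt]
      constructor
      · linarith [lt_of_le_of_lt (le_max_right (-s) (r - ε / 2)) h1]
      · linarith
  obtain ⟨W, hW⟩ := hy p k (decide (σ = 1)) hp0 hk1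
  have hW := hW ⟨hp2, by linarith⟩
  have eσ : (if decide (σ = 1) then (1:ℝ) else -1) = σ := by
    rcases hσ with rfl | rfl
    · simp
    · norm_num
  rw [eσ] at hW
  have hlog : Tendsto (fun n => Real.log (a n)) atTop atTop := Real.tendsto_log_atTop.comp (a_tend hδ ha1 hgap)
  have hev : ∀ᶠ n in atTop, √(Real.log (a n)) + W ≤ ε / 2 * Real.log (a n) := by
    have h1 : ∀ᶠ x : ℝ in atTop, √x + W ≤ ε / 2 * x := by
      filter_upwards [eventually_ge_atTop ((4 / ε) ^ 2), eventually_ge_atTop (4 * W / ε),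
        eventually_ge_atTop (0:ℝ)] with x h1 h2 h3
      have h4 : 4 / ε ≤ √x := Real.le_sqrt_of_sq_le h1
      rw [div_le_iff₀ hε] at h4 h2
      have h5 : x = √x * √x := (Real.mul_self_sqrt h3).symm
      nlinarith [Real.sqrt_nonneg x]
    exact hlog.eventually h1
  refine (hW.and_eventually hev).mono fun n hn => ?_
  obtain ⟨⟨h1, h2, h3⟩, h4⟩ := hn
  have ha0 : 0 < a n := by linarith [ha1 n]
  have hL : 0 ≤ Real.log (a n) := Real.log_nonneg (ha1 n)
  have h5 : |Real.log (Xz (b n * Real.exp (a n * y))) - r * Real.log (a n)| ≤ ε * Real.log (a n) := by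
    have e1 : Real.log (Xz (b n * Real.exp (a n * y))) - r * Real.log (a n) =
        (Real.log (Xz (b n * Real.exp (a n * y))) - k * Real.log (a n)) + ((k:ℝ) - r) * Real.log (a n) := by ring
    rw [e1]
    refine (abs_add_le _ _).trans ?_
    rw [abs_mul, abs_of_nonneg hL]
    have := mul_le_mul_of_nonneg_right hk2.le hL
    linarith
  rw [abs_le] at h5
  refine ⟨h1, ?_, ?_⟩
  · rw [Real.rpow_def_of_pos ha0, ← Real.exp_log h2]
    apply Real.exp_le_exp.mpr
    linarith [h5.1]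
  · rw [Real.rpow_def_of_pos ha0]
    calc Xz (b n * Real.exp (a n * y)) = Real.exp (Real.log (Xz (b n * Real.exp (a n * y)))) := (Real.exp_log h2).symm
      _ ≤ _ := by
        apply Real.exp_le_exp.mpr
        linarith [h5.2]

end Pool.Agent.Helper932Z
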