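import Pool.Agent.H998_TS.Fin
import Pool.Agent.Helper932Z.Chg
import Pool.Agent.Helper932Z.Low

/-!
The convergence part, for almost all `y`.
-/

set_option autoImplicit false

namespace Pool.Agent.Helper932Z

open Filter Topology MeasureTheory
open Pool.Agent.TH806 Pool.Agent.TH806.LS
open scoped ENNReal

/-- the moment in a dyadic interval -/
lemma mom {β : ℝ} (h0 : 0 < β) (h4 : β < 4) : ∃ C : ℝ, 0 < C ∧ ∀ᶠ T : ℝ in atTop,
    ∫⁻ t in Set.Icc T (2 * T), ENNReal.ofReal (Xz t ^ β) ≤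
      ENNReal.ofReal (C * Real.log T ^ (β ^ 2 / 4)) * ENNReal.ofReal T := by
  obtain ⟨η, hη, H⟩ := Pool.Agent.H998_TS.all h0 h4 0
  obtain ⟨C, hC, H⟩ := H η hη le_rfl
  refine ⟨2 * C * 2 ^ (β ^ 2 / 4), by positivity, ?_⟩
  have h2 : Tendsto (fun T : ℝ => 2 * T) atTop atTop := tendsto_id.const_mul_atTop (by norm_num)
  filter_upwards [h2.eventually (H 0), eventually_ge_atTop 1, Real.tendsto_log_atTop.eventually_ge_atTop 1]
    with T h1 hT hL
  have hT0 : 0 < T := by linarith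
  have e1 : (Pool.Agent.H998_TS.FF β 0 (Pool.Agent.H998_TS.yy η (2 * T))) = fun t => Xz t ^ β := by
    funext t
    unfold Pool.Agent.H998_TS.FF
    rw [pow_zero, mul_one]
    rfl
  rw [e1, add_zero] at h1
  have hc := Xz_pow_cont h0.le
  have hii : ∀ a b : ℝ, IntervalIntegrable (fun t => Xz t ^ β) volume a b := fun a b => hc.intervalIntegrable a b
  have h3 := intervalIntegral.integral_add_adjacent_intervals (hii 0 T) (hii T (2 * T))
  have h5 : 0 ≤ ∫ t in (0:ℝ)..T, Xz t ^ β :=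
    intervalIntegral.integral_nonneg hT0.le fun t _ => Real.rpow_nonneg (Xz_nonneg t) _
  have h6 : ∫ t in T..(2 * T), Xz t ^ β ≤ 2 * C * 2 ^ (β ^ 2 / 4) * Real.log T ^ (β ^ 2 / 4) * T := by
    have hl : Real.log (2 * T) ≤ 2 * Real.log T := by
      rw [Real.log_mul (by norm_num) hT0.ne']
      have := Real.log_two_lt_d9
      linarith
    have hl0 : 0 ≤ Real.log (2 * T) := Real.log_nonneg (by linarith)
    have h7 : Real.log (2 * T) ^ (β ^ 2 / 4) ≤ 2 ^ (β ^ 2 / 4) * Real.log T ^ (β ^ 2 / 4) := by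
      rw [← Real.mul_rpow (by norm_num) (by linarith)]
      exact Real.rpow_le_rpow hl0 hl (by positivity)
    have h8 : C * (2 * T * Real.log (2 * T) ^ (β ^ 2 / 4)) ≤
        C * (2 * T * (2 ^ (β ^ 2 / 4) * Real.log T ^ (β ^ 2 / 4))) := by gcongr
    calc ∫ t in T..(2 * T), Xz t ^ β ≤ C * (2 * T * (2 ^ (β ^ 2 / 4) * Real.log T ^ (β ^ 2 / 4))) := by linarith
      _ = _ := by ring
  have h9 : ∫⁻ t in Set.Icc T (2 * T), ENNReal.ofReal (Xz t ^ β) = ENNReal.ofReal (∫ t in T..(2 * T), Xz t ^ β) := by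
    rw [intervalIntegral.integral_of_le (by linarith), ← integral_Icc_eq_integral_Ioc,
      ofReal_integral_eq_lintegral_ofReal]
    · exact hc.integrableOn_Icc
    · exact Eventually.of_forall fun t => Real.rpow_nonneg (Xz_nonneg t) _
  rw [h9, ← ENNReal.ofReal_mul (by positivity)]
  exact ENNReal.ofReal_le_ofReal h6

/-- the moment along `b exp (a y)` -/
lemma mom_y {a b : ℕ → ℝ} {δ : ℝ} (hδ : 0 < δ) (ha1 : ∀ n, 1 ≤ a n) (hgap : ∀ n, a n + δ ≤ a (n + 1))
    (hb : ∀ n, 0 < b n) (hba : Tendsto (fun n => Real.log (b n) / a n) atTop (𝓝 0)) {β : ℝ} (h0 : 0 < β)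
    (h4 : β < 4) {p q : ℝ} (hp : 0 < p) (hpq : p < q) : ∃ C : ℝ, 0 < C ∧ ∀ᶠ n in atTop,
      ∫⁻ y in Set.Icc p q, ENNReal.ofReal (Xz (b n * Real.exp (a n * y)) ^ β) ≤
        ENNReal.ofReal (C * a n ^ (β ^ 2 / 4)) := by
  obtain ⟨C, hC, H⟩ := mom h0 h4
  have hpq0 : 0 < p + q := by linarith
  have hq0 : 0 < q := by linarith
  refine ⟨C * (p + q) ^ (β ^ 2 / 4) * (2 * (q + p / 2) + 1), by positivity, ?_⟩
  obtain ⟨T₀, hT₀⟩ := eventually_atTop.mp H
  have hat := a_tend hδ ha1 hgap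
  have hev1 : ∀ᶠ n in atTop, max T₀ 1 ≤ Real.exp (a n * (p / 2)) :=
    (Real.tendsto_exp_atTop.comp (hat.atTop_mul_const (by positivity : 0 < p / 2))).eventually_ge_atTop _
  have hev2 : ∀ᶠ n in atTop, |Real.log (b n) / a n| < p / 2 := by
    have := hba.abs
    rw [abs_zero] at this
    exact this.eventually_lt_const (by positivity)
  filter_upwards [hev1, hev2] with n h1 h2
  have ha0 : 0 < a n := by linarith [ha1 n]
  set g : ℝ → ℝ≥0∞ := fun t => ENNReal.ofReal (Xz t ^ β) with hg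
  set γ := Real.log (b n) / a n with hγ
  rw [abs_lt] at h2
  have e1 : ∀ y, b n * Real.exp (a n * y) = Real.exp (a n * (y + γ)) := by
    intro y
    have : a n * (y + γ) = a n * y + Real.log (b n) := by
      rw [hγ]; field_simp
    rw [this, Real.exp_add, Real.exp_log (hb n), mul_comm]
  have e2 : ∫⁻ y in Set.Icc p q, g (b n * Real.exp (a n * y)) =
      ∫⁻ y in Set.Icc (p + γ) (q + γ), g (Real.exp (a n * y)) := by
    have h3 : MeasurePreserving (fun y : ℝ => y + γ) volume volume := measurePreserving_add_right volume γ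
    have h5 := h3.setLIntegral_comp_preimage_emb (measurableEmbedding_addRight γ)
      (fun y => g (Real.exp (a n * y))) (Set.Icc (p + γ) (q + γ))
    rw [← h5]
    simp only [Set.preimage_add_const_Icc, add_sub_cancel_right]
    exact lintegral_congr fun y => by rw [e1]
  have h6 := chg_up (g := g) (a := a n) (c := p / 2) (d := q + p)
    (B := ENNReal.ofReal (C * (a n * (p + q)) ^ (β ^ 2 / 4))) (ha1 n) (by linarith) (fun T hT1 hT2 => by
      have hT : T₀ ≤ T := ((le_max_left _ _).trans h1).trans hT1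
      have hT1' : 1 ≤ T := ((le_max_right _ _).trans h1).trans hT1
      refine (hT₀ T hT).trans ?_
      gcongr
      · exact Real.log_nonneg hT1'
      · have h7 := Real.log_le_log (by linarith) hT2
        rw [Real.log_exp] at h7
        linarith)
  calc ∫⁻ y in Set.Icc p q, g (b n * Real.exp (a n * y)) =
        ∫⁻ y in Set.Icc (p + γ) (q + γ), g (Real.exp (a n * y)) := e2
    _ ≤ ∫⁻ y in Set.Icc (p / 2) (q + p), g (Real.exp (a n * y)) := by
        apply lintegral_mono_set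
        exact Set.Icc_subset_Icc (by linarith) (by linarith)
    _ ≤ _ := h6
    _ = _ := by
        rw [← ENNReal.ofReal_mul (by positivity)]
        congr 1
        rw [Real.mul_rpow ha0.le hpq0.le]
        ring

lemma bc0 {μ : Measure ℝ} {S : ℕ → Set ℝ} {B : ℕ → ℝ} (hB0 : ∀ n, 0 ≤ B n) (hB : Summable B)
    (h : ∀ᶠ n in atTop, μ (S n) ≤ ENNReal.ofReal (B n)) : ∀ᵐ y ∂μ, ∀ᶠ n in atTop, y ∉ S n := by
  rw [eventually_atTop] at h
  obtain ⟨n0, h⟩ := h
  have hB' : Summable fun j => B (j + n0) := (summable_nat_add_iff n0).mpr hB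
  have h1 : ∑' j, μ (S (j + n0)) ≤ ∑' j, ENNReal.ofReal (B (j + n0)) :=
    ENNReal.tsum_le_tsum fun j => h _ (by omega)
  have h2 : ∑' j, ENNReal.ofReal (B (j + n0)) ≠ ⊤ := by
    rw [← ENNReal.ofReal_tsum_of_nonneg (fun _ => hB0 _) hB']
    exact ENNReal.ofReal_ne_top
  have h3 := ae_eventually_notMem (μ := μ) (s := fun j => S (j + n0)) (ne_top_of_le_ne_top h2 h1)
  filter_upwards [h3] with y hy
  rw [eventually_atTop] at hy ⊢
  obtain ⟨j0, hy⟩ := hy
  refine ⟨j0 + n0, fun n hn => ?_⟩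
  have := hy (n - n0) (by omega)
  rwa [Nat.sub_add_cancel (by omega)] at this

/-- one interval, small `s` -/
lemma up_one {a b : ℕ → ℝ} {δ : ℝ} (hδ : 0 < δ) (ha1 : ∀ n, 1 ≤ a n) (hgap : ∀ n, a n + δ ≤ a (n + 1))
    (hb : ∀ n, 0 < b n) (hba : Tendsto (fun n => Real.log (b n) / a n) atTop (𝓝 0)) {s : ℝ} (hs0 : 0 < s)
    (hs2 : s < 2) (hs : Summable fun n => a n ^ (-(s ^ 2))) {p q : ℝ} (hp : 0 < p) (hpq : p < q) :
    ∀ᵐ y ∂(volume.restrict (Set.Icc p q)), ∀ᶠ n in atTop, Xz (b n * Real.exp (a n * y)) ≤ a n ^ s := by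
  obtain ⟨C, hC, H⟩ := mom_y hδ ha1 hgap hb hba (β := 2 * s) (by linarith) (by linarith) hp hpq
  have hc : ∀ n, Continuous fun y : ℝ => Xz (b n * Real.exp (a n * y)) := fun n =>
    Xz_cont.comp (by fun_prop)
  have := bc0 (μ := volume.restrict (Set.Icc p q))
    (S := fun n => {y : ℝ | a n ^ s < Xz (b n * Real.exp (a n * y))}) (B := fun n => C * a n ^ (-(s ^ 2)))
    (fun n => mul_nonneg hC.le (Real.rpow_nonneg (by linarith [ha1 n]) _)) (hs.mul_left C) (by
      filter_upwards [H] with n hn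
      have ha0 : 0 < a n := by linarith [ha1 n]
      have h1 : ENNReal.ofReal (a n ^ (2 * s ^ 2)) *
          (volume.restrict (Set.Icc p q)) {y : ℝ | a n ^ s < Xz (b n * Real.exp (a n * y))} ≤
          ENNReal.ofReal (C * a n ^ ((2 * s) ^ 2 / 4)) := by
        refine le_trans ?_ hn
        refine le_trans ?_ (mul_meas_ge_le_lintegral₀ (μ := volume.restrict (Set.Icc p q))
          (f := fun y => ENNReal.ofReal (Xz (b n * Real.exp (a n * y)) ^ (2 * s)))
          (((hc n).rpow_const fun _ => Or.inr (by positivity)).measurable.ennreal_ofReal.aemeasurable)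
          (ENNReal.ofReal (a n ^ (2 * s ^ 2))))
        gcongr with y
        intro hy'
        apply ENNReal.ofReal_le_ofReal
        calc a n ^ (2 * s ^ 2) = (a n ^ s) ^ (2 * s) := by
              rw [← Real.rpow_mul ha0.le]; congr 1; ring
          _ ≤ _ := Real.rpow_le_rpow (by positivity) hy'.le (by positivity)
      have h2 : (volume.restrict (Set.Icc p q)) {y : ℝ | a n ^ s < Xz (b n * Real.exp (a n * y))} =
          ENNReal.ofReal (a n ^ (-(2 * s ^ 2))) * (ENNReal.ofReal (a n ^ (2 * s ^ 2)) *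
          (volume.restrict (Set.Icc p q)) {y : ℝ | a n ^ s < Xz (b n * Real.exp (a n * y))}) := by
        rw [← mul_assoc, ← ENNReal.ofReal_mul (by positivity), ← Real.rpow_add ha0]
        simp
      rw [h2]
      refine (mul_le_mul_right h1 _).trans ?_
      rw [← ENNReal.ofReal_mul (by positivity)]
      apply ENNReal.ofReal_le_ofReal
      apply le_of_eq
      rw [mul_left_comm, ← Real.rpow_add ha0]
      congr 2
      ring)
  filter_upwards [this] with y hy
  filter_upwards [hy] with n hn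
  exact not_lt.mp hn

theorem up_y {a b : ℕ → ℝ} {δ s : ℝ} (hδ : 0 < δ) (ha1 : ∀ n, 1 ≤ a n) (hgap : ∀ n, a n + δ ≤ a (n + 1))
    (hb : ∀ n, 0 < b n) (hba : Tendsto (fun n => Real.log (b n) / a n) atTop (𝓝 0)) (hs0 : 0 < s)
    (hs : Summable fun n => a n ^ (-(s ^ 2))) :
    ∀ᵐ y : ℝ, 0 < y → ∀ᶠ n in atTop, Xz (b n * Real.exp (a n * y)) ≤ a n ^ s := by
  have h1 : ∀ k : ℕ, ∀ᵐ y : ℝ, y ∈ Set.Icc (1 / ((k:ℝ) + 2)) ((k:ℝ) + 2) →
      ∀ᶠ n in atTop, Xz (b n * Real.exp (a n * y)) ≤ a n ^ s := by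
    intro k
    have hk : (0:ℝ) ≤ k := Nat.cast_nonneg k
    have hp : 0 < 1 / ((k:ℝ) + 2) := by positivity
    have hpq : 1 / ((k:ℝ) + 2) < (k:ℝ) + 2 := by
      rw [div_lt_iff₀ (by positivity)]
      nlinarith
    rw [← ae_restrict_iff' measurableSet_Icc]
    by_cases h2 : s < 2
    · exact up_one hδ ha1 hgap hb hba hs0 h2 hs hp hpq
    · push Not at h2
      have h3 := up_one hδ ha1 hgap hb hba (s := 3 / 2) (by norm_num) (by norm_num)
        (summable_of_gt_one hδ ha1 hgap (by norm_num)) hp hpq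
      filter_upwards [h3] with y hy
      filter_upwards [hy] with n hn
      exact hn.trans (Real.rpow_le_rpow_of_exponent_le (ha1 n) (by linarith))
  filter_upwards [ae_all_iff.mpr h1] with y hy hy0
  obtain ⟨k, hk⟩ := exists_nat_ge (max y (1 / y))
  apply hy k
  have h2 : y ≤ k := (le_max_left _ _).trans hk
  have h3 : 1 / y ≤ k := (le_max_right _ _).trans hk
  rw [Set.mem_Icc]
  constructor
  · rw [div_le_iff₀ (by positivity)]
    rw [div_le_iff₀ hy0] at h3
    nlinarith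
  · linarith

end Pool.Agent.Helper932Z
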